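import Pool.Agent.Q267.TD.Soft
import Pool.Agent.Q267.AP.Dbl

/-!
# All values of the parameter
-/

set_option autoImplicit false

open Finset

namespace Pool.Agent.Q267.TD

open Pool.Agent.Q267.ST Pool.Agent.Q267.AP
open Pool.Agent.Q267.AM (S_RootG)
open Pool.Agent.Q267.DC (hm hm_map det_hm_map)

section

variable {ι J : Type} [Fintype ι] [DecidableEq ι] [Fintype J] [DecidableEq J]

omit [DecidableEq ι] in
lemma Vtx.map {A B : Type} [CommRing A] [CommRing B] (φ : A →+* B) {m N' h : ℕ}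
    {f : MvPolynomial ι (Polynomial A)} {w : ι →₀ ℕ} {ω : ι → ℕ} {κ : A}
    (hv : Vtx m N' f w ω h κ) :
    Vtx m N' (MvPolynomial.map (Polynomial.mapRingHom φ) f) w ω h (φ κ) := by
  obtain ⟨⟨r, hr⟩, h2⟩ := hv
  refine ⟨⟨r.map φ, ?_⟩, fun u hu hne => ?_⟩
  · rw [MvPolynomial.coeff_map, hr, Polynomial.coe_mapRingHom, Polynomial.map_mul,
      Polynomial.map_pow, Polynomial.map_X, Polynomial.map_add, Polynomial.map_mul,
      Polynomial.map_X, Polynomial.map_C]
  · obtain ⟨h', r', hr', hlt⟩ := h2 u (MvPolynomial.support_map_subset _ _ hu) hne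
    refine ⟨h', r'.map φ, ?_, hlt⟩
    rw [MvPolynomial.coeff_map, hr', Polynomial.coe_mapRingHom, Polynomial.map_mul,
      Polynomial.map_pow, Polynomial.map_X]

variable {A : Type} [CommRing A] [IsDomain A] [CharZero A]

/-- **The soft Stepanov theorem for toric degenerations.** -/
theorem soft2T (hSoft : S_Soft) (hLip : S_Lip) (hadd : S_DFadd) (hmul : S_DFmul)
    (hpoly : S_DFpoly) (hof : S_DFofODE) (hto : S_DFtoODE) (hroot : S_RootG) (hF : S_FrobG)
    (hC : S_CxMul) {m N' : ℕ} (hm1 : 1 ≤ m)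
    (hN : 1 ≤ N') (w : J → ι →₀ ℕ) (hw : Function.Injective w) (hw1 : ∀ j i, 1 ≤ w j i)
    {μ : A} (hμ : (m : A) ^ 2 * μ = 1)
    (κ κ' : J → A) (hκ : ∀ j, κ j * κ' j = 1) (h : J → ℕ) (ω : J → ι → ℕ)
    (f : MvPolynomial ι (Polynomial A)) (hv : ∀ j, Vtx m N' f (w j) (ω j) (h j) (κ j))
    (ε : ℝ) (hε : 0 < ε) (H : ℕ) (hH : ∀ v, (MvPolynomial.coeff v f).natDegree ≤ H) :
    ∃ (p₀ : ℕ) (a : A), a ≠ 0 ∧ ∀ (p : ℕ) (k : Type) [Field k] [CharP k p] (φ : A →+* k),
      p.Prime → p₀ ≤ p → φ a ≠ 0 → ∀ e : ℕ, e * m + 1 = p →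
      (∀ l, ∀ v ∈ (MvPolynomial.monomial (w l) 1 *
        (MvPolynomial.map (Polynomial.mapRingHom φ) f) ^ e).support,
        (∃ v' : ι →₀ ℕ, v = p • v') → ∃ i, v = p • w i) →
      ∀ Z : Finset k, (∀ t ∈ Z, t ^ p = t ∧ (hm e p w (MvPolynomial.map
        (Polynomial.mapRingHom φ) f)).det.eval t = 0) →
      (Z.card : ℝ) ≤ ε * p := by
  classical
  set A' := LaurentPolynomial A with hA'
  have hinj : Function.Injective (LaurentPolynomial.C : A →+* A') := by
    intro x y hxy
    have h1 := congrArg (fun q : A' => q.coeff 0) hxy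
    simpa using h1
  have hdom : IsDomain A' := inferInstance
  have hchar : CharZero A' := by
    refine ⟨fun x y hxy => ?_⟩
    apply Nat.cast_injective (R := A)
    apply hinj
    rw [map_natCast, map_natCast]
    exact hxy
  set f' : MvPolynomial ι (Polynomial A') :=
    MvPolynomial.map (Polynomial.mapRingHom (LaurentPolynomial.C : A →+* A')) f with hf'
  obtain ⟨p₁, a', ha', hS⟩ := soft1T (A := A') hSoft hLip hadd hmul hpoly hof hto hroot hF hC
    hm1 hN w hw hw1 (μ := LaurentPolynomial.C μ) (γ := LaurentPolynomial.T 1)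
    (γ' := LaurentPolynomial.T (-1))
    (by rw [← map_natCast (LaurentPolynomial.C : A →+* A'), ← map_pow, ← map_mul, hμ, map_one])
    (by rw [← LaurentPolynomial.T_add]; exact LaurentPolynomial.T_zero)
    (fun j => LaurentPolynomial.C (κ j)) (fun j => LaurentPolynomial.C (κ' j))
    (fun j => by rw [← map_mul, hκ j, map_one]) h ω f'
    (fun j => (hv j).map _) (ε / 8) (by positivity) H (fun v => by
      rw [hf', MvPolynomial.coeff_map, Polynomial.coe_mapRingHom]
      exact (Polynomial.natDegree_map_le).trans (hH v))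
  obtain ⟨n, q, hq⟩ := LaurentPolynomial.exists_T_pow a'
  have hq0 : q ≠ 0 := by
    rintro rfl
    rw [map_zero] at hq
    have hT : (LaurentPolynomial.T (n : ℤ) : A') ≠ 0 :=
      (LaurentPolynomial.isUnit_T (R := A) (n : ℤ)).ne_zero
    exact mul_ne_zero ha' hT hq.symm
  refine ⟨max (max p₁ 2) (max ⌈(2 * (2 * ((q.natDegree : ℝ) + 1) + 1)) / ε⌉₊ ⌈8 / ε⌉₊),
    q.leadingCoeff, Polynomial.leadingCoeff_ne_zero.mpr hq0, ?_⟩
  intro p k _ _ φ hpp hp0 hφ e he hsupp Z hZ
  have hp1 : p₁ ≤ p := (le_max_left _ _).trans ((le_max_left _ _).trans hp0)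
  have hp3 : (2 * (2 * ((q.natDegree : ℝ) + 1) + 1)) / ε ≤ p :=
    (Nat.le_ceil _).trans (by exact_mod_cast (le_max_left _ _).trans ((le_max_right _ _).trans hp0))
  have hp4 : 8 / ε ≤ (p : ℝ) :=
    (Nat.le_ceil _).trans (by
      exact_mod_cast (le_max_right _ _).trans ((le_max_right _ _).trans hp0))
  have hp2 : (2 : ℝ) ≤ p := by exact_mod_cast hpp.two_le
  have hqk : q.map φ ≠ 0 := by
    intro h0
    have h1 := congrArg (fun q' => Polynomial.coeff q' q.natDegree) h0
    simp only [Polynomial.coeff_map, Polynomial.coeff_zero] at h1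
    exact hφ h1
  set B : Finset k := insert 0 (q.map φ).roots.toFinset with hB
  have hBc : B.card ≤ q.natDegree + 1 := by
    refine (card_insert_le _ _).trans (Nat.succ_le_succ ?_)
    exact (Multiset.toFinset_card_le _).trans ((Polynomial.card_roots' _).trans
      Polynomial.natDegree_map_le)
  have key := dbl hpp (m * N') (q.natDegree + 1) (ε / 4) (by positivity)
    B Z hBc (fun t ht => (hZ t ht).1)
    (fun g₀ hg₀ hgB T hT => by
      rw [hB, mem_insert, not_or] at hgB
      obtain ⟨hg0, hgr⟩ := hgB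
      set φ' : A' →+* k := LaurentPolynomial.eval₂ φ (Units.mk0 g₀ hg0) with hφ'd
      have hφC : φ'.comp LaurentPolynomial.C = φ := by
        ext x
        rw [RingHom.comp_apply, hφ'd, LaurentPolynomial.eval₂_C]
      have hφ'T : φ' (LaurentPolynomial.T 1) = g₀ := by
        rw [hφ'd, LaurentPolynomial.eval₂_T]
        simp
      have hφ' : φ' a' ≠ 0 := by
        intro h0
        have h1 := congrArg φ' hq
        rw [map_mul, h0, zero_mul, hφ'd, LaurentPolynomial.eval₂_toLaurent] at h1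
        apply hgr
        rw [Multiset.mem_toFinset, Polynomial.mem_roots hqk, Polynomial.IsRoot.def,
          Polynomial.eval_map]
        exact h1
      have hfk : MvPolynomial.map (Polynomial.mapRingHom φ') f' =
          MvPolynomial.map (Polynomial.mapRingHom φ) f := by
        rw [hf', MvPolynomial.map_map, Polynomial.mapRingHom_comp, hφC]
      have h1 := hS p k φ' hpp hp1 hφ' e he (by rw [hfk]; exact hsupp) (T.erase 0) (by
        intro s hs
        obtain ⟨hs0, hs'⟩ := mem_erase.mp hs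
        obtain ⟨hs1, hs2⟩ := hT s hs'
        refine ⟨hs1, hs0, ?_⟩
        rw [hfk, hφ'T]
        exact (hZ _ hs2).2)
      have h2 : (T.card : ℝ) ≤ (T.erase 0).card + 1 := by
        have := pred_card_le_card_erase (s := T) (a := (0 : k))
        have h3 : T.card ≤ (T.erase 0).card + 1 := by omega
        exact_mod_cast h3
      have h3 : 8 ≤ p * ε := by rwa [div_le_iff₀ hε] at hp4
      linarith)
  have h4 : (2 * (2 * ((q.natDegree : ℝ) + 1) + 1)) ≤ p * ε := by
    rwa [div_le_iff₀ hε] at hp3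
  have hpos : (0 : ℝ) < (p : ℝ) - 1 := by linarith
  have h5 : ε / 4 * p * p + ((q.natDegree + 1 : ℕ) : ℝ) * p ≤ (ε * p - 1) * (p - 1) := by
    have hd : (0 : ℝ) ≤ (q.natDegree : ℝ) + 1 := by positivity
    push_cast
    nlinarith [mul_le_mul_of_nonneg_right h4 (by linarith : (0 : ℝ) ≤ (p : ℝ)),
      mul_nonneg hε.le (mul_nonneg (by linarith : (0 : ℝ) ≤ (p : ℝ))
        (by linarith : (0 : ℝ) ≤ (p : ℝ) - 2)), mul_nonneg hd (by linarith : (0 : ℝ) ≤ (p : ℝ) - 2)]
  have h6 := le_of_mul_le_mul_right (key.trans h5) hpos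
  linarith

end

end Pool.Agent.Q267.TD
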