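import Pool.Agent.Q267.TD.Dbl
import Pool.Agent.Q267.AM.Conc

/-!
# Families of forms with a toric degeneration at `0`
-/

set_option autoImplicit false

open Finset

namespace Pool.Agent.Q267.TD

open Pool.Agent.Q267.ST Pool.Agent.Q267.AP
open Pool.Agent.Q267.AM (rootG)
open Pool.Agent.Q267.DC (hm hm_map det_hm_map)

/-- Linear conditions `ℓ(x) ≥ b`. -/
abbrev Cond (n : ℕ) := Finset (Fin (n + 1) → ℤ) × ((Fin (n + 1) → ℤ) → ℤ)

/-- The exponents `w` with `w i ≥ 1`, `∑ w i = e` and `ℓ(w) > b`. -/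
abbrev Ex (n e : ℕ) (Λ : Cond n) :=
  {w : (i : Fin (n + 1)) → Fin (e + 1) // (∀ i, 0 < (w i : ℕ)) ∧ ∑ i, (w i : ℕ) = e ∧
    ∀ ℓ ∈ Λ.1, Λ.2 ℓ < ∑ i, ℓ i * ((w i : ℕ) : ℤ)}

/-- The exponent as a finitely supported function. -/
noncomputable def wx (n e : ℕ) (Λ : Cond n) (w : Ex n e Λ) : Fin (n + 1) →₀ ℕ :=
  Finsupp.equivFunOnFinite.symm fun i => (w.1 i : ℕ)

/-- The exponents of `f` are in `m P`. -/
def Sup {R : Type} [CommRing R] {n : ℕ} (m e : ℕ) (Λ : Cond n) (f : MvPolynomial (Fin (n + 1)) R) :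
    Prop :=
  ∀ u ∈ f.support, ∑ i, u i = m * e ∧ ∀ ℓ ∈ Λ.1, m * Λ.2 ℓ ≤ ∑ i, ℓ i * (u i : ℤ)

section supp

variable {n e : ℕ} {Λ : Cond n}

lemma Sup.map {R S : Type} [CommRing R] [CommRing S] (φ : R →+* S) {m : ℕ}
    {f : MvPolynomial (Fin (n + 1)) R} (h : Sup m e Λ f) : Sup m e Λ (MvPolynomial.map φ f) :=
  fun u hu => h u (MvPolynomial.support_map_subset _ _ hu)

lemma wx_apply (w : Ex n e Λ) (i : Fin (n + 1)) : wx n e Λ w i = (w.1 i : ℕ) := rfl

lemma wx_inj (n e : ℕ) (Λ : Cond n) : Function.Injective (wx n e Λ) := by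
  intro w w' h
  refine Subtype.ext (funext fun i => Fin.ext ?_)
  exact DFunLike.congr_fun h i

lemma lin_pow {R : Type} [CommRing R] (l : Fin (n + 1) → ℤ) (b : ℤ)
    (F : MvPolynomial (Fin (n + 1)) R) (hF : ∀ u ∈ F.support, b ≤ ∑ i, l i * (u i : ℤ)) (e : ℕ)
    (u : Fin (n + 1) →₀ ℕ) (hu : u ∈ (F ^ e).support) : e * b ≤ ∑ i, l i * (u i : ℤ) := by
  classical
  induction e generalizing u with
  | zero =>
    rw [pow_zero] at hu
    have h1 : u = 0 := by
      by_contra h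
      rw [MvPolynomial.mem_support_iff, MvPolynomial.coeff_one, if_neg (Ne.symm h)] at hu
      exact hu rfl
    rw [h1]
    simp
  | succ e ih =>
    rw [pow_succ] at hu
    obtain ⟨a, ha, b', hb', hab⟩ := mem_add.mp (MvPolynomial.support_mul _ _ hu)
    have h1 := ih a ha
    have h2 := hF b' hb'
    rw [← hab]
    simp only [Finsupp.add_apply]
    push_cast
    simp only [mul_add, sum_add_distrib]
    linarith

lemma supp_condT {R : Type} [CommRing R] {m p e' : ℕ} (hp : p ≠ 0)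
    (he : e' * m + 1 = p) (F : MvPolynomial (Fin (n + 1)) R) (hF : Sup m e Λ F) (l : Ex n e Λ)
    (v : Fin (n + 1) →₀ ℕ) (hv : v ∈ (MvPolynomial.monomial (wx n e Λ l) 1 * F ^ e').support)
    (hv' : ∃ v' : Fin (n + 1) →₀ ℕ, v = p • v') : ∃ i : Ex n e Λ, v = p • wx n e Λ i := by
  classical
  obtain ⟨v', rfl⟩ := hv'
  obtain ⟨b, hb, u, hu, hbu⟩ := mem_add.mp (MvPolynomial.support_mul _ _ hv)
  have hb' := mem_singleton.mp (MvPolynomial.support_monomial_subset hb)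
  rw [hb'] at hbu
  have h1 := sum_pow (m * e) F (fun u hu => (hF u hu).1) e' u hu
  have h2 : ∑ i, wx n e Λ l i = e := l.2.2.1
  have h3 : p * ∑ i, v' i = p * e := by
    have h4 : ∑ i, (wx n e Λ l + u) i = ∑ i, (p • v') i := by rw [hbu]
    rw [sum_smul] at h4
    simp only [Finsupp.add_apply, sum_add_distrib] at h4
    rw [h1, h2] at h4
    rw [← h4, ← he]
    ring
  have h4 : ∑ i, v' i = e := Nat.eq_of_mul_eq_mul_left (Nat.pos_of_ne_zero hp) h3
  have h5 : ∀ i, 0 < v' i := by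
    intro i
    have h6 := DFunLike.congr_fun hbu i
    rw [Finsupp.add_apply, Finsupp.smul_apply, smul_eq_mul] at h6
    have h7 := l.2.1 i
    rw [wx_apply] at h6
    by_contra h8
    have h9 : v' i = 0 := by omega
    rw [h9, mul_zero] at h6
    omega
  have h6 : ∀ i, v' i < e + 1 := by
    intro i
    have h7 : v' i ≤ ∑ i, v' i :=
      single_le_sum (f := fun i => v' i) (fun _ _ => Nat.zero_le _) (mem_univ i)
    omega
  refine ⟨⟨fun i => ⟨v' i, h6 i⟩, h5, h4, fun ℓ hℓ => ?_⟩, ?_⟩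
  · have h7 := lin_pow ℓ (m * Λ.2 ℓ) F (fun u hu => (hF u hu).2 ℓ hℓ) e' u hu
    have h8 := l.2.2.2 ℓ hℓ
    have h9 : ∑ i, ℓ i * ((wx n e Λ l + u) i : ℤ) = ∑ i, ℓ i * ((p • v') i : ℤ) := by rw [hbu]
    have h10 : ∑ i, ℓ i * ((p • v') i : ℤ) = p * ∑ i, ℓ i * (v' i : ℤ) := by
      rw [mul_sum]
      refine sum_congr rfl fun i _ => ?_
      rw [Finsupp.smul_apply, smul_eq_mul]
      push_cast
      ring
    have h11 : ∑ i, ℓ i * ((wx n e Λ l + u) i : ℤ) =
        ∑ i, ℓ i * ((l.1 i : ℕ) : ℤ) + ∑ i, ℓ i * (u i : ℤ) := by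
      rw [← sum_add_distrib]
      refine sum_congr rfl fun i _ => ?_
      rw [Finsupp.add_apply, wx_apply]
      push_cast
      ring
    rw [h10, h11] at h9
    have h12 : (p : ℤ) * Λ.2 ℓ < p * ∑ i, ℓ i * (v' i : ℤ) := by
      rw [← h9]
      have h13 : (p : ℤ) = e' * m + 1 := by exact_mod_cast he.symm
      have h14 : (p : ℤ) * Λ.2 ℓ = Λ.2 ℓ + e' * (m * Λ.2 ℓ) := by
        rw [h13]
        ring
      rw [h14]
      exact add_lt_add_of_lt_of_le h8 h7
    exact lt_of_mul_lt_mul_left h12 (Int.natCast_nonneg _)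
  · congr 1
    ext i
    rfl

end supp

/-- The exponent `v` is a vertex, at `0`, with invertible leading coefficient. -/
def VertA {A : Type} [CommRing A] {n : ℕ} (f : MvPolynomial (Fin (n + 1)) (Polynomial A))
    (v : Fin (n + 1) →₀ ℕ) : Prop :=
  (∃ κ' : A, (MvPolynomial.coeff v f).trailingCoeff * κ' = 1) ∧
  ∃ lam : Fin (n + 1) → ℚ, ∀ u ∈ f.support, u ≠ v →
    ∑ i, lam i * ((u i : ℚ) - (v i : ℚ)) <
      ((MvPolynomial.coeff u f).natTrailingDegree : ℚ) -
        ((MvPolynomial.coeff v f).natTrailingDegree : ℚ)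

lemma exists_trail {A : Type} [CommRing A] (c : Polynomial A) : ∃ r : Polynomial A,
    c = Polynomial.X ^ c.natTrailingDegree * (Polynomial.C c.trailingCoeff + Polynomial.X * r) := by
  obtain ⟨q, hq⟩ : Polynomial.X ^ c.natTrailingDegree ∣ c := by
    rw [Polynomial.X_pow_dvd_iff]
    intro d hd
    exact Polynomial.coeff_eq_zero_of_lt_natTrailingDegree hd
  refine ⟨q.divX, ?_⟩
  have h1 : c.trailingCoeff = q.coeff 0 := by
    have h2 := congrArg (fun P => Polynomial.coeff P c.natTrailingDegree) hq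
    simp only [Polynomial.coeff_X_pow_mul'] at h2
    rw [if_pos le_rfl, Nat.sub_self] at h2
    exact h2
  rw [h1]
  have h3 : Polynomial.C (q.coeff 0) + Polynomial.X * q.divX = q := by
    rw [_root_.add_comm]
    exact Polynomial.X_mul_divX_add q
  rw [h3]
  exact hq

/-- The families with a toric degeneration at `0`, over a ring. -/
theorem concT (n e m : ℕ) (Λ : Cond n) (hm1 : 1 ≤ m) {A : Type} [CommRing A] [IsDomain A]
    [CharZero A] (μ : A) (hμ : (m : A) ^ 2 * μ = 1)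
    (f : MvPolynomial (Fin (n + 1)) (Polynomial A)) (hf : Sup m e Λ f)
    (hv : ∀ w : Ex n e Λ, VertA f (m • wx n e Λ w)) (ε : ℝ) (hε : 0 < ε) :
    ∃ (p₀ : ℕ) (a : A), a ≠ 0 ∧ ∀ (p : ℕ) (k : Type) [Field k] [CharP k p] (φ : A →+* k),
      p.Prime → p₀ ≤ p → φ a ≠ 0 → ∀ e' : ℕ, e' * m + 1 = p →
      ∀ Z : Finset k, (∀ t ∈ Z, t ^ p = t ∧ (hm e' p (wx n e Λ) (MvPolynomial.map
        (Polynomial.mapRingHom φ) f)).det.eval t = 0) → (Z.card : ℝ) ≤ ε * p := by
  classical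
  choose κ' hκ' using fun w => (hv w).1
  choose lam hlam using fun w => (hv w).2
  set N' : ℕ := ∏ w : Ex n e Λ, ∏ i, (lam w i).den with hN'
  have hN1 : 1 ≤ N' := Nat.one_le_iff_ne_zero.mpr (prod_ne_zero_iff.mpr fun w _ =>
    prod_ne_zero_iff.mpr fun i _ => (lam w i).den_nz)
  have hz : ∀ (w : Ex n e Λ) (i : Fin (n + 1)), ∃ z : ℤ, (z : ℚ) = m * N' * lam w i := by
    intro w i
    obtain ⟨q, hq⟩ : (lam w i).den ∣ N' :=
      (dvd_prod_of_mem (fun i => (lam w i).den) (mem_univ i)).trans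
        (dvd_prod_of_mem (fun w : Ex n e Λ => ∏ i, (lam w i).den) (mem_univ w))
    refine ⟨m * q * (lam w i).num, ?_⟩
    push_cast
    rw [hq]
    push_cast
    have h1 : ((lam w i).den : ℚ) * lam w i = (lam w i).num := Rat.den_mul_eq_num _
    calc (m : ℚ) * q * (lam w i).num = m * q * (((lam w i).den : ℚ) * lam w i) := by rw [h1]
      _ = _ := by ring
  choose z hz using hz
  set S : ℤ := ∑ w : Ex n e Λ, ∑ i, |z w i| with hS
  have hSz : ∀ w i, z w i ≤ S := by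
    intro w i
    refine (le_abs_self _).trans ?_
    refine (single_le_sum (f := fun i => |z w i|) (fun i _ => abs_nonneg _) (mem_univ i)).trans ?_
    exact single_le_sum (f := fun w : Ex n e Λ => ∑ i, |z w i|)
      (fun w _ => sum_nonneg fun i _ => abs_nonneg _) (mem_univ w)
  have hω : ∀ w i, ∃ x : ℕ, (x : ℤ) = S - z w i := fun w i =>
    ⟨(S - z w i).toNat, Int.toNat_of_nonneg (by have := hSz w i; omega)⟩
  choose ω hω using hω
  have hvt : ∀ w : Ex n e Λ, Vtx m N' f (wx n e Λ w) (ω w)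
      (MvPolynomial.coeff (m • wx n e Λ w) f).natTrailingDegree
      (MvPolynomial.coeff (m • wx n e Λ w) f).trailingCoeff := by
    intro w
    refine ⟨exists_trail _, fun u hu hne => ?_⟩
    obtain ⟨r, hr⟩ := exists_trail (MvPolynomial.coeff u f)
    refine ⟨_, _, hr, ?_⟩
    have h1 := hlam w u hu hne
    set h := (MvPolynomial.coeff (m • wx n e Λ w) f).natTrailingDegree
    set h' := (MvPolynomial.coeff u f).natTrailingDegree
    have h2 : ∑ i, (u i : ℚ) = m * e := by exact_mod_cast (hf u hu).1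
    have h3 : ∑ i, (wx n e Λ w i : ℚ) = e := by exact_mod_cast w.2.2.1
    have h4 : (0 : ℚ) < m * N' := by
      have : 0 < m * N' := Nat.mul_pos hm1 hN1
      exact_mod_cast this
    have h5 := mul_lt_mul_of_pos_left h1 h4
    have h6 : (m * N' : ℚ) * ∑ i, lam w i * ((u i : ℚ) - ((m • wx n e Λ w) i : ℚ)) =
        ∑ i, (z w i : ℚ) * (u i : ℚ) - m * ∑ i, (z w i : ℚ) * (wx n e Λ w i : ℚ) := by
      rw [mul_sum, mul_sum, ← sum_sub_distrib]
      refine sum_congr rfl fun i _ => ?_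
      rw [hz, Finsupp.smul_apply, smul_eq_mul]
      push_cast
      ring
    rw [h6] at h5
    have h7 : ∀ v : Fin (n + 1) →₀ ℕ, ∑ i, (ω w i : ℚ) * (v i : ℚ) =
        S * ∑ i, (v i : ℚ) - ∑ i, (z w i : ℚ) * (v i : ℚ) := by
      intro v
      rw [mul_sum, ← sum_sub_distrib]
      refine sum_congr rfl fun i _ => ?_
      have h8 : ((ω w i : ℕ) : ℚ) = ((ω w i : ℤ) : ℚ) := by norm_cast
      rw [h8, hω]
      push_cast
      ring
    have h8 : ((m * (N' * h + ∑ i, ω w i * wx n e Λ w i) : ℕ) : ℚ) <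
        ((m * N' * h' + ∑ i, ω w i * u i : ℕ) : ℚ) := by
      push_cast
      rw [h7, h7, h2, h3]
      linarith
    exact_mod_cast h8
  obtain ⟨p₀, a, ha, H⟩ := soft2T soft_stepanov lip Pool.Agent.Q121.ST.dfAdd
    Pool.Agent.Q121.ST.dfMul Pool.Agent.Q121.ST.dfPoly Pool.Agent.Q121.ST.dfOfODE
    Pool.Agent.Q121.ST.dfToODE rootG frobG Pool.Agent.Q299.ST.cxMul hm1 hN1
    (wx n e Λ) (wx_inj n e Λ) (fun j i => (j.2.1 i : 1 ≤ (j.1 i : ℕ))) hμ _ κ' hκ' _ ω f hvt
    ε hε (f.support.sup fun v => (MvPolynomial.coeff v f).natDegree)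
    (fun v => by
      by_cases hv : v ∈ f.support
      · exact le_sup (f := fun v => (MvPolynomial.coeff v f).natDegree) hv
      · rw [MvPolynomial.notMem_support_iff.mp hv, Polynomial.natDegree_zero]
        exact Nat.zero_le _)
  refine ⟨p₀, a, ha, ?_⟩
  intro p k _ _ φ hpp hp0 hφ e' he Z hZ
  exact H p k φ hpp hp0 hφ e' he (fun l v hv hv' => supp_condT hpp.ne_zero he _
    (hf.map _) l v hv hv') Z hZ

end Pool.Agent.Q267.TD
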