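import Pool.Agent.Q267.TD.Det
import Pool.Agent.Q102.AP.Norm

/-!
# The normal form in a torus chart
-/

set_option autoImplicit false

open Finset

namespace Pool.Agent.Q267.TD

open Pool.Agent.Q267.ST Pool.Agent.Q267.AP
open Pool.Agent.Q174.AP (coeff_scal)
open Pool.Agent.Q102.AP (toP xP coe_xP xP_add xP_zero coe_toP)

section

variable {ι A : Type} [Fintype ι] [DecidableEq ι] [CommRing A]

/-- For the weights `ω` (and the weight `m N'` of the parameter) the monomial with the exponent `m w` has smaller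
order than the other monomials; `h` is the order and `κ` the leading coefficient of its coefficient. -/
def Vtx (m N' : ℕ) (f : MvPolynomial ι (Polynomial A)) (w : ι →₀ ℕ) (ω : ι → ℕ) (h : ℕ)
    (κ : A) : Prop :=
  (∃ r : Polynomial A, MvPolynomial.coeff (m • w) f =
    Polynomial.X ^ h * (Polynomial.C κ + Polynomial.X * r)) ∧
  ∀ u ∈ f.support, u ≠ m • w → ∃ (h' : ℕ) (r : Polynomial A),
    MvPolynomial.coeff u f = Polynomial.X ^ h' * r ∧
      m * (N' * h + ∑ i, ω i * w i) < m * N' * h' + ∑ i, ω i * u i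

omit [DecidableEq ι] in
lemma vtx_scal {m N' h : ℕ} {f : MvPolynomial ι (Polynomial A)} {w : ι →₀ ℕ} {ω : ι → ℕ} {κ : A}
    (hm : 1 ≤ m) (hN : 1 ≤ N') (γ : A) (hv : Vtx m N' f w ω h κ) :
    ∃ R : MvPolynomial ι (Polynomial A), scal ω γ (m * N') f =
      MvPolynomial.C (Polynomial.X ^ (m * (N' * h + ∑ i, ω i * w i))) *
        (MvPolynomial.monomial (m • w) (Polynomial.C (κ * γ ^ h)) +
          MvPolynomial.C Polynomial.X * R) := by
  classical
  obtain ⟨⟨r, hr⟩, h2⟩ := hv
  have hX : ∀ n : ℕ, (Polynomial.X ^ n : Polynomial A).comp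
      (Polynomial.C γ * Polynomial.X ^ (m * N')) =
      Polynomial.C (γ ^ n) * Polynomial.X ^ (m * N' * n) := by
    intro n
    rw [Polynomial.X_pow_comp, mul_pow, ← Polynomial.C_pow, ← pow_mul]
  have key : ∀ u : ι →₀ ℕ, ∃ R : Polynomial A, Polynomial.X ^ (∑ i, ω i * u i) *
      (MvPolynomial.coeff u f).comp (Polynomial.C γ * Polynomial.X ^ (m * N')) =
      Polynomial.X ^ (m * (N' * h + ∑ i, ω i * w i)) *
        ((if m • w = u then Polynomial.C (κ * γ ^ h) else 0) + Polynomial.X * R) := by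
    intro u
    by_cases hu : m • w = u
    · subst hu
      have h3 : ∑ i, ω i * (m • w) i = m * ∑ i, ω i * w i := by
        rw [mul_sum]
        exact sum_congr rfl fun i _ => by rw [Finsupp.smul_apply, smul_eq_mul]; ring
      refine ⟨Polynomial.C (γ ^ (h + 1)) * Polynomial.X ^ (m * N' - 1) *
        r.comp (Polynomial.C γ * Polynomial.X ^ (m * N')), ?_⟩
      rw [if_pos rfl, hr, Polynomial.mul_comp, hX, Polynomial.add_comp, Polynomial.C_comp,
        Polynomial.mul_comp, Polynomial.X_comp, h3]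
      have h4 : (Polynomial.X : Polynomial A) ^ (m * N') =
          Polynomial.X * Polynomial.X ^ (m * N' - 1) := by
        rw [← pow_succ']
        congr 1
        have : 1 ≤ m * N' := Nat.mul_pos hm hN
        omega
      set q := r.comp (Polynomial.C γ * Polynomial.X ^ (m * N'))
      rw [h4, map_mul, pow_succ, map_mul]
      ring
    · rw [if_neg hu]
      by_cases hs : u ∈ f.support
      · obtain ⟨h', r', hr', hlt⟩ := h2 u hs (Ne.symm hu)
        obtain ⟨d, hd⟩ := Nat.exists_eq_add_of_lt hlt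
        refine ⟨Polynomial.C (γ ^ h') * Polynomial.X ^ d *
          r'.comp (Polynomial.C γ * Polynomial.X ^ (m * N')), ?_⟩
        rw [hr', Polynomial.mul_comp, hX]
        calc _ = Polynomial.X ^ (m * N' * h' + ∑ i, ω i * u i) * (Polynomial.C (γ ^ h') *
              r'.comp (Polynomial.C γ * Polynomial.X ^ (m * N'))) := by ring
          _ = _ := by
            rw [hd]
            ring
      · refine ⟨0, ?_⟩
        rw [MvPolynomial.notMem_support_iff.mp hs]
        simp
  choose R hR using key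
  refine ⟨∑ u ∈ insert (m • w) f.support, MvPolynomial.monomial u (R u), ?_⟩
  ext1 u
  rw [coeff_scal, hR, MvPolynomial.coeff_C_mul, MvPolynomial.coeff_add, MvPolynomial.coeff_monomial,
    MvPolynomial.coeff_C_mul, MvPolynomial.coeff_sum]
  by_cases hu : u ∈ insert (m • w) f.support
  · rw [Finset.sum_eq_single u]
    · rw [MvPolynomial.coeff_monomial, if_pos rfl]
    · intro v _ hv
      rw [MvPolynomial.coeff_monomial, if_neg hv]
    · intro h
      exact absurd hu h
  · have h3 : ∑ x ∈ insert (m • w) f.support,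
        MvPolynomial.coeff u (MvPolynomial.monomial x (R x)) = 0 := by
      refine sum_eq_zero fun v hv => ?_
      rw [MvPolynomial.coeff_monomial, if_neg]
      rintro rfl
      exact hu hv
    rw [h3, ← hR, mul_zero, add_zero]
    rw [mem_insert, not_or] at hu
    rw [if_neg (Ne.symm hu.1), MvPolynomial.notMem_support_iff.mp hu.2]
    simp

/-- The normal form. -/
lemma vtx_norm {m N' h : ℕ} {f : MvPolynomial ι (Polynomial A)} {w : ι →₀ ℕ} {ω : ι → ℕ}
    {κ κ' γ γ' μ : A} (hm : 1 ≤ m) (hN : 1 ≤ N') (hκ : κ * κ' = 1) (hγ : γ * γ' = 1)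
    (hμ : (m : A) ^ 2 * μ = 1) (hv : Vtx m N' f w ω h κ) :
    ∃ y : Polynomial (LP ι A), y.coeff 0 = 0 ∧ toL (scal ω γ (m * N') f) =
      PowerSeries.X ^ (m * (N' * h + ∑ i, ω i * w i)) *
        (cst (PowerSeries.C (κ * γ ^ h)) * xm (zexp (m • w)) *
          (1 + (m : PowerSeries (LP ι A)) ^ 2 * (y : PowerSeries (LP ι A)))) := by
  obtain ⟨R, hR⟩ := vtx_scal hm hN γ hv
  refine ⟨Polynomial.X * (Polynomial.C (algebraMap A (LP ι A) (μ * (κ' * γ' ^ h))) *
    xP (-zexp (m • w)) * toP R), by rw [Polynomial.coeff_X_mul_zero], ?_⟩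
  have hX : ∀ n : ℕ, toL (MvPolynomial.C (Polynomial.X ^ n) : MvPolynomial ι (Polynomial A)) =
      PowerSeries.X ^ n := by
    intro n
    rw [toL_C, Polynomial.coe_pow, Polynomial.coe_X, map_pow]
    congr 1
    unfold cst
    rw [PowerSeries.map_X]
  have hX1 : toL (MvPolynomial.C Polynomial.X : MvPolynomial ι (Polynomial A)) =
      PowerSeries.X := by
    have := hX 1
    rwa [pow_one, pow_one] at this
  have hu : cst (PowerSeries.C (κ * γ ^ h)) * cst (PowerSeries.C (κ' * γ' ^ h)) =
      (1 : PowerSeries (LP ι A)) := by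
    rw [← map_mul, ← map_mul]
    have : κ * γ ^ h * (κ' * γ' ^ h) = 1 := by
      calc κ * γ ^ h * (κ' * γ' ^ h) = (κ * κ') * (γ * γ') ^ h := by rw [mul_pow]; ring
        _ = 1 := by rw [hκ, hγ, one_pow, mul_one]
    rw [this, map_one, map_one]
  have hx : (xm (zexp (m • w)) : PowerSeries (LP ι A)) * xm (-zexp (m • w)) = 1 := by
    rw [← xm_add, ← xm_zero]
    congr 1
    exact add_neg_cancel _
  have hmu : (m : PowerSeries (LP ι A)) ^ 2 * cst (PowerSeries.C μ) = 1 := by
    have : (m : PowerSeries (LP ι A)) = cst (PowerSeries.C (m : A)) := by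
      rw [map_natCast, map_natCast]
    rw [this, ← map_pow, ← map_pow, ← map_mul, ← map_mul, hμ, map_one, map_one]
  have hco : (Polynomial.C (algebraMap A (LP ι A) (μ * (κ' * γ' ^ h))) :
      PowerSeries (LP ι A)) = cst (PowerSeries.C μ) * cst (PowerSeries.C (κ' * γ' ^ h)) := by
    rw [← map_mul, ← map_mul, Polynomial.coe_C]
    unfold cst
    rw [PowerSeries.map_C]
  rw [hR, map_mul toL, hX, map_add toL, map_mul toL (MvPolynomial.C Polynomial.X) R, hX1,
    toL_monomial, Polynomial.coe_C]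
  congr 1
  rw [Polynomial.coe_mul, Polynomial.coe_X, Polynomial.coe_mul, Polynomial.coe_mul, coe_xP, coe_toP,
    hco]
  set a := cst (PowerSeries.C (κ * γ ^ h)) with ha
  set b := cst (PowerSeries.C (κ' * γ' ^ h))
  set x := (xm (zexp (m • w)) : PowerSeries (LP ι A))
  set x' := (xm (-zexp (m • w)) : PowerSeries (LP ι A))
  calc a * x + PowerSeries.X * toL R = a * x + (a * b) * (x * x') *
        ((m : PowerSeries (LP ι A)) ^ 2 * cst (PowerSeries.C μ)) * (PowerSeries.X * toL R) := by
        rw [hu, hx, hmu, one_mul, one_mul, one_mul]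
    _ = _ := by ring

end

end Pool.Agent.Q267.TD
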