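import Pool.Agent.Q267.TD.Norm

/-!
# The zeros of the Hasse-Witt determinant on the curves `s = γ S ^ N`, torus charts
-/

set_option autoImplicit false

open Finset

namespace Pool.Agent.Q267.TD

open Pool.Agent.Q267.ST Pool.Agent.Q267.AP
open Pool.Agent.Q267.AM (S_RootG)
open Pool.Agent.Q174.AP (coeff_scal)
open Pool.Agent.Q267.DC (hm hm_map det_hm_map)

section

variable {ι J : Type} [Fintype ι] [DecidableEq ι] [Fintype J] [DecidableEq J]

section maps

variable {A k : Type} [CommRing A] [CommRing k]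

omit [DecidableEq ι] in
lemma scal_map (φ : A →+* k) (ω : ι → ℕ) (γ : A) (N : ℕ) (F : MvPolynomial ι (Polynomial A)) :
    scal ω (φ γ) N (MvPolynomial.map (Polynomial.mapRingHom φ) F) =
      MvPolynomial.map (Polynomial.mapRingHom φ) (scal ω γ N F) := by
  ext1 v
  rw [coeff_scal, MvPolynomial.coeff_map, MvPolynomial.coeff_map, coeff_scal,
    Polynomial.coe_mapRingHom, Polynomial.map_mul, Polynomial.map_pow, Polynomial.map_X,
    Polynomial.map_comp, Polynomial.map_mul, Polynomial.map_pow, Polynomial.map_X,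
    Polynomial.map_C]

omit [Fintype ι] [DecidableEq ι] [Fintype J] [DecidableEq J] in
lemma emat_map (φ : A →+* k) (w : J → ι →₀ ℕ) (K : J → J → ℕ)
    (Ψ : J → PowerSeries (LP ι A)) :
    emat w K (fun j => PowerSeries.map (LPm φ) (Ψ j)) =
      (emat w K Ψ).map (PowerSeries.map φ) := by
  ext1 j l
  rw [Matrix.map_apply]
  unfold emat
  rw [Matrix.of_apply, Matrix.of_apply, map_mul, map_pow, PowerSeries.map_X, cx_map]

end maps

variable {A : Type} [CommRing A] [IsDomain A] [CharZero A]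

/-- **The series of the family.** -/
theorem seriesT (hLip : S_Lip) (hadd : S_DFadd) (hmul : S_DFmul) (hpoly : S_DFpoly)
    (hof : S_DFofODE) (hto : S_DFtoODE) (hroot : S_RootG) {m N' : ℕ} (hm1 : 1 ≤ m)
    (hN : 1 ≤ N') (w : J → ι →₀ ℕ) {μ γ γ' : A} (hμ : (m : A) ^ 2 * μ = 1) (hγ : γ * γ' = 1)
    (κ κ' : J → A) (hκ : ∀ j, κ j * κ' j = 1) (h : J → ℕ) (ω : J → ι → ℕ)
    (f : MvPolynomial ι (Polynomial A)) (hv : ∀ j, Vtx m N' f (w j) (ω j) (h j) (κ j))
    (K : J → J → ℕ) (hK0 : ∀ j, K j j = 0) (hK1 : ∀ j l, j ≠ l → 1 ≤ K j l) :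
    ∃ Ψ G : J → PowerSeries (LP ι A),
      (∀ j, Ψ j ^ m * G j = cst (PowerSeries.C (κ j * γ ^ h j))) ∧
      (∀ j, toL (scal (ω j) γ (m * N') f) =
        PowerSeries.X ^ (m * (N' * h j + ∑ i, ω j i * w j i)) * G j) ∧
      HasODE (emat w K Ψ).det ∧ PowerSeries.constantCoeff (emat w K Ψ).det = 1 := by
  have h1 := fun j => vtx_norm hm1 hN (hκ j) hγ hμ (hv j)
  choose y hy0 hy using h1
  have h2 : ∀ j, ∃ ψ : PowerSeries (LP ι A), PowerSeries.constantCoeff ψ = 1 ∧
      ψ ^ m * (1 + (m : PowerSeries (LP ι A)) ^ 2 * (y j : PowerSeries (LP ι A))) = 1 := by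
    intro j
    refine hroot (LP ι A) m hm1 _ ?_
    rw [← PowerSeries.coeff_zero_eq_constantCoeff_apply, Polynomial.coeff_coe]
    exact hy0 j
  choose ψ hψ1 hψ2 using h2
  have hode : ∀ j u, HasODE (cx u (ψ j)) := by
    intro j u
    refine hLip ι A m (1 + (m : Polynomial (LP ι A)) ^ 2 * y j) (ψ j) (by omega) ?_ _
    rw [← hψ2 j]
    congr 1
    simp only [← Polynomial.coeToPowerSeries.ringHom_apply, map_add, map_mul, map_pow, map_one,
      map_natCast]
  refine ⟨fun j => xm (-zexp (w j)) * ψ j,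
    fun j => cst (PowerSeries.C (κ j * γ ^ h j)) * xm (zexp (m • w j)) *
            (1 + (m : PowerSeries (LP ι A)) ^ 2 * (y j : PowerSeries (LP ι A))),
    fun j => ?_, hy, ?_, ?_⟩
  · have h4 : (xm (-zexp (w j)) : PowerSeries (LP ι A)) ^ m * xm (zexp (m • w j)) = 1 := by
      rw [xm_pow, ← xm_add, ← xm_zero]
      congr 1
      funext i
      change m • (-(w j i : ℤ)) + ((m • w j) i : ℤ) = 0
      rw [Finsupp.smul_apply, smul_eq_mul, nsmul_eq_mul]
      push_cast
      ring
    calc (xm (-zexp (w j)) * ψ j) ^ m * (cst (PowerSeries.C (κ j * γ ^ h j)) *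
          xm (zexp (m • w j)) *
            (1 + (m : PowerSeries (LP ι A)) ^ 2 * (y j : PowerSeries (LP ι A)))) =
          cst (PowerSeries.C (κ j * γ ^ h j)) * (xm (-zexp (w j)) ^ m * xm (zexp (m • w j))) *
          (ψ j ^ m * (1 + (m : PowerSeries (LP ι A)) ^ 2 * (y j : PowerSeries (LP ι A)))) := by
          ring
      _ = _ := by rw [h4, hψ2, mul_one, mul_one]
  · apply hto
    refine dfin_det hadd hmul hpoly _ fun j l => ?_
    unfold emat
    rw [Matrix.of_apply, cx_xm_mul, ← Polynomial.coe_X, ← Polynomial.coe_pow]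
    exact hmul A _ _ (hpoly A _) (hof A _ (hode j _))
  · have h3 : (emat w K fun j => xm (-zexp (w j)) * ψ j).map
          (PowerSeries.constantCoeff (R := A)) = 1 := by
      ext1 j l
      rw [Matrix.map_apply]
      unfold emat
      rw [Matrix.of_apply, cx_xm_mul, map_mul, map_pow, PowerSeries.constantCoeff_X]
      by_cases hjl : j = l
      · subst hjl
        have h5 : ((fun i => -(w j i : ℤ)) - -zexp (w j) : ι → ℤ) = 0 := by
          funext i
          change -(w j i : ℤ) - -(w j i : ℤ) = 0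
          ring
        rw [h5, hK0, pow_zero, one_mul, Matrix.one_apply_eq,
          ← PowerSeries.coeff_zero_eq_constantCoeff_apply, coeff_cx,
          PowerSeries.coeff_zero_eq_constantCoeff_apply, hψ1, AddMonoidAlgebra.one_def,
          AddMonoidAlgebra.coeff_single, Finsupp.single_eq_same]
      · rw [Matrix.one_apply_ne hjl, zero_pow (by have := hK1 j l hjl; omega), zero_mul]
    rw [RingHom.map_det]
    change ((emat w K fun j => xm (-zexp (w j)) * ψ j).map
          (PowerSeries.constantCoeff (R := A))).det = _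
    rw [h3, Matrix.det_one]

omit [DecidableEq ι] [Fintype J] [DecidableEq J] [CharZero A] in
/-- The vertices are different. -/
lemma vtx_lt {m N' : ℕ} (hm1 : 1 ≤ m) {w : J → ι →₀ ℕ} (hw : Function.Injective w)
    {κ κ' : J → A} (hκ : ∀ j, κ j * κ' j = 1) {h : J → ℕ} {ω : J → ι → ℕ}
    {f : MvPolynomial ι (Polynomial A)} (hv : ∀ j, Vtx m N' f (w j) (ω j) (h j) (κ j))
    (j l : J) (hjl : j ≠ l) :
    N' * h j + ∑ i, ω j i * w j i < N' * h l + ∑ i, ω j i * w l i := by
  obtain ⟨r, hr⟩ := (hv l).1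
  have hco : (MvPolynomial.coeff (m • w l) f).coeff (h l) = κ l := by
    rw [hr, Polynomial.coeff_X_pow_mul']
    simp
  have hκ0 : κ l ≠ 0 := fun h0 => by
    have := hκ l
    rw [h0, zero_mul] at this
    exact zero_ne_one this
  have hmem : m • w l ∈ f.support := by
    rw [MvPolynomial.mem_support_iff]
    intro h0
    rw [h0, Polynomial.coeff_zero] at hco
    exact hκ0 hco.symm
  have hne : m • w l ≠ m • w j := by
    intro h0
    apply hjl
    apply hw
    ext i
    have := DFunLike.congr_fun h0 i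
    rw [Finsupp.smul_apply, Finsupp.smul_apply, smul_eq_mul, smul_eq_mul] at this
    exact (Nat.eq_of_mul_eq_mul_left hm1 this).symm
  obtain ⟨h', r', hr', hlt⟩ := (hv j).2 _ hmem hne
  have hle : h' ≤ h l := by
    by_contra hno
    rw [hr', Polynomial.coeff_X_pow_mul', if_neg (by omega)] at hco
    exact hκ0 hco.symm
  have h3 : ∑ i, ω j i * (m • w l) i = m * ∑ i, ω j i * w l i := by
    rw [mul_sum]
    exact sum_congr rfl fun i _ => by rw [Finsupp.smul_apply, smul_eq_mul]; ring
  rw [h3] at hlt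
  have h4 : m * N' * h' ≤ m * N' * h l := Nat.mul_le_mul_left _ hle
  have h5 : m * (N' * h j + ∑ i, ω j i * w j i) < m * (N' * h l + ∑ i, ω j i * w l i) := by
    calc _ < m * N' * h' + m * ∑ i, ω j i * w l i := hlt
      _ ≤ m * N' * h l + m * ∑ i, ω j i * w l i := Nat.add_le_add_right h4 _
      _ = _ := by ring
  exact lt_of_mul_lt_mul_left h5 (Nat.zero_le _)

/-- **The soft Stepanov theorem for the curves `s = γ S ^ N`.** -/
theorem soft1T (hSoft : S_Soft) (hLip : S_Lip) (hadd : S_DFadd) (hmul : S_DFmul)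
    (hpoly : S_DFpoly) (hof : S_DFofODE) (hto : S_DFtoODE) (hroot : S_RootG) (hF : S_FrobG)
    (hC : S_CxMul) {m N' : ℕ} (hm1 : 1 ≤ m)
    (hN : 1 ≤ N') (w : J → ι →₀ ℕ) (hw : Function.Injective w) (hw1 : ∀ j i, 1 ≤ w j i)
    {μ γ γ' : A} (hμ : (m : A) ^ 2 * μ = 1) (hγ : γ * γ' = 1)
    (κ κ' : J → A) (hκ : ∀ j, κ j * κ' j = 1) (h : J → ℕ) (ω : J → ι → ℕ)
    (f : MvPolynomial ι (Polynomial A)) (hv : ∀ j, Vtx m N' f (w j) (ω j) (h j) (κ j))
    (ε : ℝ) (hε : 0 < ε) (H : ℕ) (hH : ∀ v, (MvPolynomial.coeff v f).natDegree ≤ H) :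
    ∃ (p₀ : ℕ) (a : A), a ≠ 0 ∧ ∀ (p : ℕ) (k : Type) [Field k] [CharP k p] (φ : A →+* k),
      p.Prime → p₀ ≤ p → φ a ≠ 0 → ∀ e : ℕ, e * m + 1 = p →
      (∀ l, ∀ v ∈ (MvPolynomial.monomial (w l) 1 *
        (MvPolynomial.map (Polynomial.mapRingHom φ) f) ^ e).support,
        (∃ v' : ι →₀ ℕ, v = p • v') → ∃ i, v = p • w i) →
      ∀ T : Finset k, (∀ s ∈ T, s ^ p = s ∧ s ≠ 0 ∧ (hm e p w (MvPolynomial.map
        (Polynomial.mapRingHom φ) f)).det.eval (φ γ * s ^ (m * N')) = 0) →
      (T.card : ℝ) ≤ ε * p := by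
  classical
  set K : J → J → ℕ := fun j l => (N' * h l + ∑ i, ω j i * w l i) -
    (N' * h j + ∑ i, ω j i * w j i) with hKd
  have hlt := vtx_lt hm1 hw hκ hv
  obtain ⟨Ψ, G, hΨ, hch, hode, hD1⟩ := seriesT hLip hadd hmul hpoly hof hto hroot hm1 hN w hμ hγ
    κ κ' hκ h ω f hv K (fun j => Nat.sub_self _) (fun j l hjl => by
      have := hlt j l hjl
      rw [hKd]
      simp only
      omega)
  set D := (emat w K Ψ).det with hD
  have hD0 : D ≠ 0 := by
    intro h0
    rw [h0, map_zero] at hD1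
    exact zero_ne_one hD1
  obtain ⟨p₀, a, ha, hS⟩ := hSoft A D hD0 hode ε hε (Fintype.card J * H * (m * N'))
  refine ⟨p₀, a, ha, ?_⟩
  intro p k _ _ φ hpp hp0 hφ e he hsupp T hT
  have hfact : Fact p.Prime := ⟨hpp⟩
  have hp : p ≠ 0 := hpp.ne_zero
  set fk := MvPolynomial.map (Polynomial.mapRingHom φ) f with hfk
  have hsub : ∀ (j l : J), ∑ i, ω j i * (w l i - 1) + ∑ i, ω j i = ∑ i, ω j i * w l i := by
    intro j l
    rw [← sum_add_distrib]
    refine sum_congr rfl fun i _ => ?_
    obtain ⟨x, hx⟩ : ∃ x, w l i = x + 1 := ⟨w l i - 1, by have := hw1 l i; omega⟩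
    rw [hx, Nat.add_sub_cancel]
    ring
  have hid := det_starT hF hC p hp w hw hw1 m e he fk hsupp ω (φ γ) (m * N')
    (fun j => φ (κ j * γ ^ h j)) (fun j => PowerSeries.map (LPm φ) (Ψ j))
    (fun j => PowerSeries.map (LPm φ) (G j))
    (fun j => N' * h j + ∑ i, ω j i * (w j i - 1)) (fun j => N' * h j)
    (fun j => N' * h j + ∑ i, ω j i * w j i) K
    (fun j => by
      change _ = N' * h j + ∑ i, ω j i * (w j i - 1) + ∑ i, ω j i
      rw [add_assoc, hsub])
    (fun j l => by
      have h1 := hsub j l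
      have h2 := hsub j j
      have h3 : N' * h j + ∑ i, ω j i * w j i ≤ N' * h l + ∑ i, ω j i * w l i := by
        by_cases hjl : j = l
        · rw [hjl]
        · exact (hlt j l hjl).le
      change N' * h l + ∑ i, ω j i * (w l i - 1) = N' * h j + ∑ i, ω j i * (w j i - 1) + K j l
      have h4 : K j l = (N' * h l + ∑ i, ω j i * w l i) - (N' * h j + ∑ i, ω j i * w j i) := rfl
      omega)
    (fun j => by
      rw [← map_pow, ← map_mul, hΨ j, cst_map, PowerSeries.map_C])
    (fun j => by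
      rw [hfk, scal_map, toL_map, hch j, map_mul, map_pow, PowerSeries.map_X])
  rw [emat_map] at hid
  have hDk : ((emat w K Ψ).map (PowerSeries.map φ)).det = PowerSeries.map φ D := by
    rw [hD, RingHom.map_det]
    rfl
  rw [hDk] at hid
  set dk := (hm e p w fk).det with hdk
  set P := dk.comp (Polynomial.C (φ γ) * Polynomial.X ^ (m * N')) with hP
  obtain ⟨b, hb⟩ : ∃ b : k, b = (∏ j, φ (κ j * γ ^ h j)) ^ e := ⟨_, rfl⟩
  rw [← hb] at hid
  have hunit : ∀ (x y : A), x * y = 1 → φ x ≠ 0 := fun x y hxy h0 => by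
    have := congrArg φ hxy
    rw [map_mul, h0, zero_mul, map_one] at this
    exact zero_ne_one this
  have hb0 : b ≠ 0 := by
    rw [hb]
    refine pow_ne_zero _ (prod_ne_zero_iff.mpr fun j _ => ?_)
    rw [map_mul, map_pow]
    exact mul_ne_zero (hunit _ _ (hκ j)) (pow_ne_zero _ (hunit _ _ hγ))
  set n := (p - 1) * ∑ j, N' * h j with hn
  set u := Fr p hp (PowerSeries.map φ D) with hu
  have hu1 : PowerSeries.constantCoeff u ≠ 0 := by
    rw [hu, Fr_apply, PowerSeries.constantCoeff_expand,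
      ← PowerSeries.coeff_zero_eq_constantCoeff_apply, PowerSeries.coeff_map,
      PowerSeries.coeff_map, PowerSeries.coeff_zero_eq_constantCoeff_apply, hD1, map_one,
      map_one]
    exact one_ne_zero
  have huu : u * u⁻¹ = 1 := PowerSeries.mul_inv_cancel u hu1
  have hP1 : (P : PowerSeries k) = PowerSeries.X ^ n *
      (u⁻¹ * PowerSeries.C b * PowerSeries.map φ D) := by
    calc (P : PowerSeries k) = (u * u⁻¹) * P := by rw [huu, one_mul]
      _ = u⁻¹ * (u * P) := by ring
      _ = _ := by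
        rw [← hid]
        ring
  obtain ⟨P', hP'⟩ : Polynomial.X ^ n ∣ P := by
    rw [Polynomial.X_pow_dvd_iff]
    intro d hd
    rw [← Polynomial.coeff_coe, hP1, PowerSeries.coeff_X_pow_mul', if_neg (by omega)]
  have hP'1 : (P' : PowerSeries k) = u⁻¹ * PowerSeries.C b * PowerSeries.map φ D := by
    have h1 : (PowerSeries.X : PowerSeries k) ^ n ≠ 0 := pow_ne_zero _ PowerSeries.X_ne_zero
    apply mul_left_cancel₀ h1
    rw [← hP1, hP', Polynomial.coe_mul, Polynomial.coe_pow, Polynomial.coe_X]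
  refine hS p k φ hpp hp0 hφ P' (u⁻¹ * PowerSeries.C b) ?_ ?_ hP'1 ?_ T ?_
  · -- derivative
    have h2 := deriv_expand p hp (PowerSeries.map (frobenius k p) (PowerSeries.map φ D))
    have h3 : PowerSeries.derivative k (PowerSeries.C b) = 0 := PowerSeries.derivative_C
    have h4 : PowerSeries.derivative k u = 0 := by
      rw [hu, Fr_apply, h2]
    rw [Derivation.leibniz, h3, PowerSeries.derivative_inv', h4, mul_zero, smul_zero, smul_zero,
      add_zero]
  · rw [map_mul, PowerSeries.constantCoeff_inv, PowerSeries.constantCoeff_C]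
    exact mul_ne_zero (inv_ne_zero hu1) hb0
  · -- degree
    have h0 : P'.natDegree ≤ P.natDegree := by
      by_cases hz : P' = 0
      · rw [hz, Polynomial.natDegree_zero]
        exact Nat.zero_le _
      · rw [hP', Polynomial.natDegree_mul (pow_ne_zero _ Polynomial.X_ne_zero) hz]
        omega
    have h2 : P.natDegree ≤ dk.natDegree * (m * N') := by
      rw [hP]
      refine Polynomial.natDegree_comp_le.trans (Nat.mul_le_mul_left _ ?_)
      exact Polynomial.natDegree_C_mul_X_pow_le _ _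
    have h3 : ∀ v, (MvPolynomial.coeff v fk).natDegree ≤ H := by
      intro v
      rw [hfk, MvPolynomial.coeff_map, Polynomial.coe_mapRingHom]
      exact (Polynomial.natDegree_map_le).trans (hH v)
    have h4 := natDegree_det_hm h3 e p w
    have h5 : e ≤ p := by
      have : e ≤ e * m := Nat.le_mul_of_pos_right e (by omega)
      omega
    calc P'.natDegree ≤ (Fintype.card J * (e * H)) * (m * N') :=
          h0.trans (h2.trans (Nat.mul_le_mul_right _ h4))
      _ ≤ (Fintype.card J * (p * H)) * (m * N') :=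
        Nat.mul_le_mul_right _ (Nat.mul_le_mul_left _ (Nat.mul_le_mul_right _ h5))
      _ = _ := by ring
  · intro s hs
    obtain ⟨hs0, hs1, hs2⟩ := hT s hs
    refine ⟨hs0, ?_⟩
    have h1 : P.eval s = 0 := by
      rw [hP, Polynomial.eval_comp, Polynomial.eval_mul, Polynomial.eval_C, Polynomial.eval_pow,
        Polynomial.eval_X]
      exact hs2
    rw [hP', Polynomial.eval_mul, Polynomial.eval_pow, Polynomial.eval_X] at h1
    exact (mul_eq_zero.mp h1).resolve_left (pow_ne_zero _ hs1)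

end

end Pool.Agent.Q267.TD
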