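import Pool.Agent.Q267.TD.Star

/-!
# The determinant of the periods of the torus charts
-/

set_option autoImplicit false

open Finset

namespace Pool.Agent.Q267.TD

open Pool.Agent.Q267.ST Pool.Agent.Q267.AP
open Pool.Agent.Q267.DC (hm hm_map det_hm_map)

/-- The determinant identity. -/
lemma det_id {J k : Type} [Fintype J] [DecidableEq J] [Field k] (p : ℕ) (hp : 1 ≤ p)
    (T E H : Matrix J J (PowerSeries k)) (a b c Ω : J → ℕ) (hc : ∀ j, c j = a j + Ω j)
    (hTE : ∀ j l, PowerSeries.X ^ b l * T j l = PowerSeries.X ^ a j * E j l)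
    (Fr : PowerSeries k →+* PowerSeries k) (hFr : Fr PowerSeries.X = PowerSeries.X ^ p)
    (κ : J → k) (e : ℕ)
    (hstar : ∀ j l, PowerSeries.C (κ j ^ e) * PowerSeries.X ^ ((p - 1) * c j) * T j l =
      PowerSeries.X ^ ((p - 1) * Ω j) * ∑ i, Fr (T j i) * H i l) :
    PowerSeries.C ((∏ j, κ j) ^ e) * PowerSeries.X ^ ((p - 1) * ∑ j, b j) * E.det =
      Fr E.det * H.det := by
  classical
  have h1 : T.det * PowerSeries.X ^ (∑ j, b j) = PowerSeries.X ^ (∑ j, a j) * E.det := by
    have h2 : T * Matrix.diagonal (fun l => (PowerSeries.X : PowerSeries k) ^ b l) =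
        Matrix.diagonal (fun j => (PowerSeries.X : PowerSeries k) ^ a j) * E := by
      ext1 j l
      rw [Matrix.mul_diagonal, Matrix.diagonal_mul, mul_comm, hTE]
    have h3 := congrArg Matrix.det h2
    rwa [Matrix.det_mul, Matrix.det_mul, Matrix.det_diagonal, Matrix.det_diagonal,
      prod_pow_eq_pow_sum, prod_pow_eq_pow_sum] at h3
  have h4 : PowerSeries.C ((∏ j, κ j) ^ e) * PowerSeries.X ^ ((p - 1) * ∑ j, c j) * T.det =
      PowerSeries.X ^ ((p - 1) * ∑ j, Ω j) * (Fr T.det * H.det) := by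
    have h2 : Matrix.diagonal (fun j => PowerSeries.C (κ j ^ e) *
        (PowerSeries.X : PowerSeries k) ^ ((p - 1) * c j)) * T =
        Matrix.diagonal (fun j => (PowerSeries.X : PowerSeries k) ^ ((p - 1) * Ω j)) *
          (T.map Fr * H) := by
      ext1 j l
      rw [Matrix.diagonal_mul, Matrix.diagonal_mul, hstar, Matrix.mul_apply]
      rfl
    have h3 := congrArg Matrix.det h2
    rw [Matrix.det_mul, Matrix.det_mul, Matrix.det_diagonal, Matrix.det_diagonal, Matrix.det_mul,
      prod_mul_distrib, prod_pow_eq_pow_sum, prod_pow_eq_pow_sum, ← mul_sum, ← mul_sum,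
      ← map_prod, prod_pow] at h3
    have h5 : (T.map Fr).det = Fr T.det := by
      rw [RingHom.map_det]
      rfl
    rwa [h5] at h3
  have h5 := congrArg Fr h1
  rw [map_mul, map_mul, map_pow, map_pow, hFr, ← pow_mul, ← pow_mul] at h5
  have hcs : ∑ j, c j = ∑ j, a j + ∑ j, Ω j := by
    rw [← sum_add_distrib]
    exact sum_congr rfl fun j _ => hc j
  rw [hcs] at h4
  set A := ∑ j, a j
  set B := ∑ j, b j
  set W := ∑ j, Ω j
  set P := PowerSeries.C ((∏ j, κ j) ^ e)
  have hne : (PowerSeries.X : PowerSeries k) ^ (p * A + (p - 1) * W + B) ≠ 0 :=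
    pow_ne_zero _ PowerSeries.X_ne_zero
  apply mul_left_cancel₀ hne
  obtain ⟨q, rfl⟩ : ∃ q, p = q + 1 := ⟨p - 1, by omega⟩
  rw [Nat.add_sub_cancel] at *
  calc PowerSeries.X ^ ((q + 1) * A + q * W + B) * (P * PowerSeries.X ^ (q * B) * E.det) =
        PowerSeries.X ^ ((q + 1) * B) * (P * PowerSeries.X ^ (q * (A + W))) *
          (PowerSeries.X ^ A * E.det) := by ring
    _ = PowerSeries.X ^ ((q + 1) * B) * PowerSeries.X ^ B *
          (P * PowerSeries.X ^ (q * (A + W)) * T.det) := by
        rw [← h1]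
        ring
    _ = PowerSeries.X ^ B * PowerSeries.X ^ (q * W) *
          (Fr T.det * PowerSeries.X ^ ((q + 1) * B)) * H.det := by
        rw [h4]
        ring
    _ = PowerSeries.X ^ ((q + 1) * A + q * W + B) * (Fr E.det * H.det) := by
        rw [h5]
        ring

/-- The Frobenius on power series. -/
noncomputable def Fr {k : Type} [Field k] (p : ℕ) [Fact p.Prime] [CharP k p] (hp : p ≠ 0) :
    PowerSeries k →+* PowerSeries k :=
  (PowerSeries.expand p hp : PowerSeries k →ₐ[k] PowerSeries k).toRingHom.comp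
    (PowerSeries.map (frobenius k p))

lemma Fr_apply {k : Type} [Field k] (p : ℕ) [Fact p.Prime] [CharP k p] (hp : p ≠ 0)
    (F : PowerSeries k) :
    Fr p hp F = PowerSeries.expand p hp (PowerSeries.map (frobenius k p) F) := rfl

section

variable {ι J : Type} [Fintype ι] [DecidableEq ι] [Fintype J] [DecidableEq J]

/-- The normalised matrix of the periods. -/
noncomputable def emat {A : Type} [CommRing A] (w : J → ι →₀ ℕ) (K : J → J → ℕ)
    (Ψ : J → PowerSeries (LP ι A)) : Matrix J J (PowerSeries A) :=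
  Matrix.of fun j l => PowerSeries.X ^ K j l * cx (fun i => -(w l i : ℤ)) (Ψ j)

/-- The Frobenius structure of the determinant of the periods. -/
lemma det_starT (hF : S_FrobG) (hC : S_CxMul) {k : Type} [Field k] (p : ℕ) [Fact p.Prime]
    [CharP k p] (hp : p ≠ 0) (w : J → ι →₀ ℕ) (hw : Function.Injective w)
    (hw1 : ∀ j i, 1 ≤ w j i) (m e : ℕ) (he : e * m + 1 = p) (f : MvPolynomial ι (Polynomial k))
    (hs : ∀ l, ∀ v ∈ (MvPolynomial.monomial (w l) 1 * f ^ e).support,
      (∃ v' : ι →₀ ℕ, v = p • v') → ∃ i, v = p • w i)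
    (ω : J → ι → ℕ) (γ : k) (N : ℕ) (κ : J → k) (Ψ G : J → PowerSeries (LP ι k))
    (a b c : J → ℕ) (K : J → J → ℕ) (hc : ∀ j, c j = a j + ∑ i, ω j i)
    (hK : ∀ j l, b l + ∑ i, ω j i * (w l i - 1) = a j + K j l)
    (hΨ : ∀ j, Ψ j ^ m * G j = cst (PowerSeries.C (κ j)))
    (hg : ∀ j, toL (scal (ω j) γ N f) = PowerSeries.X ^ (m * c j) * G j) :
    PowerSeries.C ((∏ j, κ j) ^ e) * PowerSeries.X ^ ((p - 1) * ∑ j, b j) *
      (emat w K Ψ).det = Fr p hp (emat w K Ψ).det *
        (((hm e p w f).det.comp (Polynomial.C γ * Polynomial.X ^ N) : Polynomial k) :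
          PowerSeries k) := by
  have h7 : (((hm e p w f).map (Polynomial.compRingHom (Polynomial.C γ * Polynomial.X ^ N))).map
          (Polynomial.coeToPowerSeries.ringHom (R := k))).det =
      (((hm e p w f).det.comp (Polynomial.C γ * Polynomial.X ^ N) : Polynomial k) :
          PowerSeries k) := by
    have h8 := RingHom.map_det (Polynomial.coeToPowerSeries.ringHom (R := k))
      ((hm e p w f).map (Polynomial.compRingHom (Polynomial.C γ * Polynomial.X ^ N)))
    have h9 := RingHom.map_det (Polynomial.compRingHom (Polynomial.C γ * Polynomial.X ^ N))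
      (hm e p w f)
    rw [Polynomial.coeToPowerSeries.ringHom_apply] at h8
    change _ = Matrix.det (((hm e p w f).map
      (Polynomial.compRingHom (Polynomial.C γ * Polynomial.X ^ N))).map
          (Polynomial.coeToPowerSeries.ringHom (R := k))) at h8
    rw [← h8]
    congr 1
    exact h9.symm
  rw [← h7]
  refine det_id p (Nat.pos_of_ne_zero hp) (Matrix.of fun j l => tper (ω j) (Ψ j) (w l))
    (emat w K Ψ) _ a b c (fun j => ∑ i, ω j i) hc (fun j l => ?_) (Fr p hp) ?_ κ e
    (fun j l => ?_)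
  · rw [Matrix.of_apply]
    unfold emat tper
    rw [Matrix.of_apply, ← mul_assoc, ← mul_assoc, ← pow_add, ← pow_add, hK]
  · rw [Fr_apply, PowerSeries.map_X, PowerSeries.expand_X]
  · rw [Matrix.of_apply]
    exact starT hF hC p hp w hw hw1 m e (c j) he f hs (ω j) γ N (κ j) (Ψ j) (G j) (hΨ j) (hg j) l

end

end Pool.Agent.Q267.TD
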