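import Pool.Agent.Q267.TD.Conc
import Pool.Agent.Q267.AM.Surj

/-!
# The Cartier operator and the Hasse-Witt matrix, toric case
-/

set_option autoImplicit false

open Finset

namespace Pool.Agent.Q267.TD

open Pool.Agent.Q267.AP
open Pool.Agent.Q267.DC (hm)
open Pool.Agent.Q102.AP (coeff_U one_apply)

section

variable {k : Type} [Field k] {n : ℕ}

/-- `x ^ u` with `u + 1` in the interior of the polytope. -/
def InP {R : Type} [CommRing R] (e : ℕ) (Λ : Cond n) (A : MvPolynomial (Fin (n + 1)) R) : Prop :=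
  ∀ u ∈ A.support, ∑ i, u i + (n + 1) = e ∧ ∀ ℓ ∈ Λ.1, Λ.2 ℓ < ∑ i, ℓ i * ((u i : ℤ) + 1)

/-- If the Hasse-Witt matrix is invertible, then the Cartier operator `A ↦ U (A F ^ N)` is
surjective. -/
theorem cart_surjT (m e q N : ℕ) (Λ : Cond n) (hq : N * m + 1 = q)
    (F : MvPolynomial (Fin (n + 1)) k) (hF : Sup m e Λ F)
    (hdet : (hm N q (wx n e Λ) F).det ≠ 0)
    (B : MvPolynomial (Fin (n + 1)) k) (hB : InP e Λ B) :
    ∃ A : MvPolynomial (Fin (n + 1)) k, InP e Λ A ∧ U q (A * F ^ N) = B := by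
  classical
  have hq0 : 0 < q := by omega
  have hone : ∑ i, one (Fin (n + 1)) i = n + 1 := by
    simp only [one_apply, sum_const, card_univ, Fintype.card_fin, smul_eq_mul, mul_one]
  -- exponents
  have hexp : ∀ u : Fin (n + 1) →₀ ℕ, (∑ i, u i + (n + 1) = e ∧
      ∀ ℓ ∈ Λ.1, Λ.2 ℓ < ∑ i, ℓ i * ((u i : ℤ) + 1)) → ∃ w : Ex n e Λ,
      wx n e Λ w = u + one (Fin (n + 1)) := by
    rintro u ⟨hu, hu2⟩
    have h1 : ∀ i, u i + 1 < e + 1 := by
      intro i
      have h2 : u i ≤ ∑ i, u i :=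
        single_le_sum (f := fun i => u i) (fun _ _ => Nat.zero_le _) (mem_univ i)
      omega
    refine ⟨⟨fun i => ⟨u i + 1, h1 i⟩, fun i => Nat.succ_pos _, ?_, fun ℓ hℓ => ?_⟩, ?_⟩
    · change ∑ i, (u i + 1) = e
      rw [sum_add_distrib, sum_const, card_univ, Fintype.card_fin, smul_eq_mul, mul_one]
      exact hu
    · have h3 := hu2 ℓ hℓ
      change Λ.2 ℓ < ∑ i, ℓ i * ((u i + 1 : ℕ) : ℤ)
      push_cast
      exact h3
    · ext i
      rw [wx_apply, Finsupp.add_apply, one_apply]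
  have hle : ∀ w : Ex n e Λ, one (Fin (n + 1)) ≤ wx n e Λ w := by
    intro w i
    rw [one_apply, wx_apply]
    exact w.2.1 i
  have hws : ∀ w : Ex n e Λ, ∑ i, wx n e Λ w i = e := fun w => w.2.2.1
  -- the solution
  set H := hm N q (wx n e Λ) F with hH
  set b : Ex n e Λ → k := fun w => MvPolynomial.coeff (wx n e Λ w - one (Fin (n + 1))) B with hb
  set a : Ex n e Λ → k := H⁻¹.mulVec b with ha
  have hab : H.mulVec a = b := by
    rw [ha, Matrix.mulVec_mulVec, Matrix.mul_nonsing_inv _ (isUnit_iff_ne_zero.mpr hdet),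
      Matrix.one_mulVec]
  set A : MvPolynomial (Fin (n + 1)) k :=
    ∑ w : Ex n e Λ, MvPolynomial.monomial (wx n e Λ w - one (Fin (n + 1))) (a w) with hA
  have hAw : ∀ u ∈ A.support, ∃ w : Ex n e Λ, u = wx n e Λ w - one (Fin (n + 1)) := by
    intro u hu
    rw [hA] at hu
    obtain ⟨w, _, hw⟩ := mem_biUnion.mp (MvPolynomial.support_sum hu)
    exact ⟨w, mem_singleton.mp (MvPolynomial.support_monomial_subset hw)⟩
  have hAs : InP e Λ A := by
    intro u hu
    obtain ⟨w, rfl⟩ := hAw u hu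
    have h1 := congrArg (fun v : Fin (n + 1) →₀ ℕ => ∑ i, v i) (tsub_add_cancel_of_le (hle w))
    simp only [Finsupp.add_apply, sum_add_distrib] at h1
    rw [hone, hws] at h1
    refine ⟨h1, fun ℓ hℓ => ?_⟩
    have h2 := w.2.2.2 ℓ hℓ
    refine lt_of_lt_of_le h2 (le_of_eq (sum_congr rfl fun i _ => ?_))
    have h3 : (w.1 i : ℕ) = (wx n e Λ w - one (Fin (n + 1))) i + 1 := by
      rw [Finsupp.tsub_apply, one_apply, wx_apply]
      have := w.2.1 i
      omega
    rw [h3]
    push_cast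
    rfl
  refine ⟨A, hAs, ?_⟩
  ext1 u
  rw [coeff_U q hq0]
  by_cases hu : (∑ i, u i + (n + 1) = e ∧ ∀ ℓ ∈ Λ.1, Λ.2 ℓ < ∑ i, ℓ i * ((u i : ℤ) + 1))
  · obtain ⟨w, hw⟩ := hexp u hu
    have h1 : ∀ w' : Ex n e Λ, MvPolynomial.coeff (q • u + (q - 1) • one (Fin (n + 1)))
        (MvPolynomial.monomial (wx n e Λ w' - one (Fin (n + 1))) (a w') * F ^ N) =
          H w w' * a w' := by
      intro w'
      have h2 : H w w' = MvPolynomial.coeff (q • u + (q - 1) • one (Fin (n + 1)))
          (MvPolynomial.monomial (wx n e Λ w' - one (Fin (n + 1))) 1 * F ^ N) := by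
        rw [hH]
        unfold hm
        rw [Matrix.of_apply]
        have h3 : q • wx n e Λ w = one (Fin (n + 1)) +
            (q • u + (q - 1) • one (Fin (n + 1))) := by
          rw [hw]
          ext i
          simp only [Finsupp.add_apply, Finsupp.smul_apply, one_apply, smul_eq_mul]
          obtain ⟨q', rfl⟩ : ∃ q', q = q' + 1 := ⟨q - 1, by omega⟩
          rw [Nat.add_sub_cancel]
          ring
        have h4 : (MvPolynomial.monomial (wx n e Λ w') (1 : k) :
            MvPolynomial (Fin (n + 1)) k) = MvPolynomial.monomial (one (Fin (n + 1))) 1 *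
            MvPolynomial.monomial (wx n e Λ w' - one (Fin (n + 1))) 1 := by
          rw [MvPolynomial.monomial_mul, one_mul, add_tsub_cancel_of_le (hle w')]
        rw [h3, h4, mul_assoc, MvPolynomial.coeff_monomial_mul, one_mul]
      rw [h2, mul_comm (MvPolynomial.coeff _ _) (a w'), ← MvPolynomial.coeff_C_mul, ← mul_assoc,
        MvPolynomial.C_mul_monomial, mul_one]
    rw [hA, sum_mul, MvPolynomial.coeff_sum, sum_congr rfl fun w' _ => h1 w']
    have h5 := congrFun hab w
    have h6 : b w = MvPolynomial.coeff u B := by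
      rw [hb]
      change MvPolynomial.coeff (wx n e Λ w - one (Fin (n + 1))) B = _
      rw [hw, add_tsub_cancel_right]
    rw [← h6, ← h5]
    rfl
  · have h1 : MvPolynomial.coeff u B = 0 := by
      by_contra h2
      exact hu (hB u (MvPolynomial.mem_support_iff.mpr h2))
    rw [h1]
    by_contra h2
    apply hu
    obtain ⟨s, hs, u', hu', hsu⟩ := mem_add.mp (MvPolynomial.support_mul _ _
      (MvPolynomial.mem_support_iff.mpr h2))
    obtain ⟨l, rfl⟩ := hAw s hs
    have h3 : wx n e Λ l + u' = q • (u + one (Fin (n + 1))) := by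
      have h4 : wx n e Λ l = (wx n e Λ l - one (Fin (n + 1))) + one (Fin (n + 1)) :=
        (tsub_add_cancel_of_le (hle l)).symm
      rw [h4, add_right_comm]
      rw [show wx n e Λ l - one (Fin (n + 1)) + u' = q • u + (q - 1) • one (Fin (n + 1)) from hsu]
      ext i
      simp only [Finsupp.add_apply, Finsupp.smul_apply, one_apply, smul_eq_mul]
      obtain ⟨q', rfl⟩ : ∃ q', q = q' + 1 := ⟨q - 1, by omega⟩
      rw [Nat.add_sub_cancel]
      ring
    obtain ⟨i, hi⟩ := supp_condT (e := e) (Λ := Λ) (by omega : q ≠ 0) hq F hF l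
      (wx n e Λ l + u') (by
        rw [MvPolynomial.mem_support_iff, MvPolynomial.coeff_monomial_mul, one_mul]
        exact MvPolynomial.mem_support_iff.mp hu') ⟨_, h3⟩
    rw [h3] at hi
    have h5 : ∀ a, u a + 1 = (i.1 a : ℕ) := by
      intro a
      have h6 := DFunLike.congr_fun hi a
      rw [Finsupp.smul_apply, Finsupp.smul_apply, smul_eq_mul, smul_eq_mul, Finsupp.add_apply,
        one_apply, wx_apply] at h6
      exact Nat.eq_of_mul_eq_mul_left hq0 h6
    refine ⟨?_, fun ℓ hℓ => ?_⟩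
    · have h6 : ∑ a, (i.1 a : ℕ) = e := i.2.2.1
      rw [← h6, ← sum_congr rfl fun a _ => h5 a, sum_add_distrib, sum_const, card_univ,
        Fintype.card_fin, smul_eq_mul, mul_one]
    · have h6 := i.2.2.2 ℓ hℓ
      refine lt_of_lt_of_le h6 (le_of_eq (sum_congr rfl fun a _ => ?_))
      rw [← h5 a]
      push_cast
      rfl

end

end Pool.Agent.Q267.TD
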