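import Pool.Agent.Q267.TD.Val
import Pool.Agent.Q267.TD.Surj

/-!
# Complete intersections in toric varieties and their cyclic covers
-/

set_option autoImplicit false

open Finset

namespace Pool.Agent.Q267.TD

open Pool.Agent.Q267.AP
open NumberField IsDedekindDomain
open Pool.Agent.Q267.AM (root_place)
open Pool.Agent.Q267.OD (charP_res finite_mem red)
open Pool.Agent.Q267.DC (hm)

section sb

variable {R : Type} [CommRing R] {n : ℕ}

/-- The exponents of `F` have the degree `D` and satisfy `ℓ(u) ≥ β(ℓ)`. -/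
def Sb (L : Finset (Fin (n + 1) → ℤ)) (D : ℕ) (β : (Fin (n + 1) → ℤ) → ℤ)
    (F : MvPolynomial (Fin (n + 1)) R) : Prop :=
  ∀ u ∈ F.support, ∑ i, u i = D ∧ ∀ ℓ ∈ L, β ℓ ≤ ∑ i, ℓ i * (u i : ℤ)

variable {L : Finset (Fin (n + 1) → ℤ)}

lemma Sb.mul {D D' : ℕ} {β β' : (Fin (n + 1) → ℤ) → ℤ} {F G : MvPolynomial (Fin (n + 1)) R}
    (hF : Sb L D β F) (hG : Sb L D' β' G) : Sb L (D + D') (fun ℓ => β ℓ + β' ℓ) (F * G) := by
  classical
  intro u hu
  obtain ⟨a, ha, b, hb, hab⟩ := mem_add.mp (MvPolynomial.support_mul _ _ hu)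
  obtain ⟨h1, h2⟩ := hF a ha
  obtain ⟨h3, h4⟩ := hG b hb
  refine ⟨?_, fun ℓ hℓ => ?_⟩
  · rw [← hab, ← h1, ← h3, ← sum_add_distrib]
    exact sum_congr rfl fun i _ => Finsupp.add_apply _ _ _
  · refine (add_le_add (h2 ℓ hℓ) (h4 ℓ hℓ)).trans (le_of_eq ?_)
    rw [← hab, ← sum_add_distrib]
    refine sum_congr rfl fun i _ => ?_
    rw [Finsupp.add_apply]
    push_cast
    ring

lemma Sb.one : Sb L 0 (fun _ => 0) (1 : MvPolynomial (Fin (n + 1)) R) := by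
  classical
  intro u hu
  have h1 : u = 0 := by
    by_contra h
    rw [MvPolynomial.mem_support_iff, MvPolynomial.coeff_one, if_neg (Ne.symm h)] at hu
    exact hu rfl
  rw [h1]
  simp

lemma Sb.pow {D : ℕ} {β : (Fin (n + 1) → ℤ) → ℤ} {F : MvPolynomial (Fin (n + 1)) R}
    (hF : Sb L D β F) (N : ℕ) : Sb L (N * D) (fun ℓ => N * β ℓ) (F ^ N) := by
  induction N with
  | zero =>
    rw [pow_zero]
    simpa using (Sb.one (R := R) (L := L))
  | succ N ih =>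
    rw [pow_succ]
    have h1 := ih.mul hF
    intro u hu
    obtain ⟨h2, h3⟩ := h1 u hu
    refine ⟨?_, fun ℓ hℓ => ?_⟩
    · rw [h2]
      ring
    · refine le_trans (le_of_eq ?_) (h3 ℓ hℓ)
      push_cast
      ring

lemma Sb.prod {T : Type} (s : Finset T) {D : T → ℕ} {β : T → (Fin (n + 1) → ℤ) → ℤ}
    {F : T → MvPolynomial (Fin (n + 1)) R} (hF : ∀ b ∈ s, Sb L (D b) (β b) (F b)) :
    Sb L (∑ b ∈ s, D b) (fun ℓ => ∑ b ∈ s, β b ℓ) (∏ b ∈ s, F b) := by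
  classical
  induction s using Finset.induction_on with
  | empty =>
    simp only [sum_empty, prod_empty]
    exact Sb.one
  | insert b s hb ih =>
    simp only [sum_insert hb, prod_insert hb]
    exact (hF b (mem_insert_self _ _)).mul (ih fun c hc => hF c (mem_insert_of_mem hc))

end sb

section

variable {K : Type} [Field K] [NumberField K] {n r : ℕ}

/-- The exponent `v` is the vertex of the family `F` for the linear form `lam`. -/
def VertL (s : Option K) (lam : Fin (n + 1) → ℚ)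
    (F : MvPolynomial (Fin (n + 1)) (Polynomial (𝓞 K))) (v : Fin (n + 1) →₀ ℕ) : Prop :=
  v ∈ F.support ∧ ∀ u ∈ F.support, u ≠ v →
    ∑ i, lam i * ((u i : ℚ) - (v i : ℚ)) <
      (ordAt s ((MvPolynomial.coeff u F).map (algebraMap (𝓞 K) K)) : ℚ) -
        ordAt s ((MvPolynomial.coeff v F).map (algebraMap (𝓞 K) K))

lemma vertK_of {s : Option K} {lam : Fin (n + 1) → ℚ}
    {F : MvPolynomial (Fin (n + 1)) (Polynomial (𝓞 K))} {v : Fin (n + 1) →₀ ℕ}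
    (h : VertL s lam F v) :
    VertK s lam (MvPolynomial.map (Polynomial.mapRingHom (algebraMap (𝓞 K) K)) F) v := by
  have hOK : Function.Injective (algebraMap (𝓞 K) K) := IsFractionRing.injective (𝓞 K) K
  have hinj : Function.Injective (Polynomial.mapRingHom (algebraMap (𝓞 K) K)) :=
    Polynomial.map_injective _ hOK
  have hsupp : (MvPolynomial.map (Polynomial.mapRingHom (algebraMap (𝓞 K) K)) F).support =
      F.support := MvPolynomial.support_map_of_injective _ hinj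
  obtain ⟨h1, h2⟩ := h
  unfold VertK
  rw [hsupp]
  refine ⟨h1, fun u hu hne => ?_⟩
  have h3 := h2 u hu hne
  rw [MvPolynomial.coeff_map, MvPolynomial.coeff_map, Polynomial.coe_mapRingHom]
  have h4 : ∑ i, lam i * ((u i : ℚ) - (v i : ℚ)) = pr lam u - pr lam v := by
    unfold pr
    rw [← sum_sub_distrib]
    exact sum_congr rfl fun i _ => by ring
  rw [h4] at h3
  linarith

/-- The conditions of a sum of polytopes. -/
def cond (L : Finset (Fin (n + 1) → ℤ)) (b : Fin r → (Fin (n + 1) → ℤ) → ℤ)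
    (c : (Fin (n + 1) → ℤ) → ℤ) (I : Finset (Fin r)) : Cond n :=
  (L, fun ℓ => ∑ i ∈ I, b i ℓ + c ℓ)

/-- Vertices of the mixed subdivision. -/
def Mixed (m : ℕ) (s : Option K) (I : Finset (Fin r))
    (f : Fin r → MvPolynomial (Fin (n + 1)) (Polynomial (𝓞 K)))
    (F : MvPolynomial (Fin (n + 1)) (Polynomial (𝓞 K))) (w : Fin (n + 1) →₀ ℕ) : Prop :=
  ∃ (lam : Fin (n + 1) → ℚ) (v : Fin r → Fin (n + 1) →₀ ℕ) (v' : Fin (n + 1) →₀ ℕ),
    (∀ i ∈ I, VertL s lam (f i) (v i)) ∧ VertL s lam F v' ∧ m • ∑ i ∈ I, v i + v' = m • w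

/-- The Cartier operator is surjective. -/
def SurjT {R : Type} [CommRing R] (m q E : ℕ) (Λ : Cond n) (I : Finset (Fin r))
    (g : Fin r → MvPolynomial (Fin (n + 1)) R) (h : MvPolynomial (Fin (n + 1)) R) : Prop :=
  ∀ B : MvPolynomial (Fin (n + 1)) R, InP E Λ B →
    ∃ A : MvPolynomial (Fin (n + 1)) R, InP E Λ A ∧
      U q (A * ((∏ i ∈ I, g i) ^ m * h) ^ ((q - 1) / m)) = B

/-- Good places. -/
def GoodX (m : ℕ) (J : Finset ℕ) (L : Finset (Fin (n + 1) → ℤ)) (d : Fin r → ℕ)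
    (b : Fin r → (Fin (n + 1) → ℤ) → ℤ) (e : ℕ → ℕ) (c : ℕ → (Fin (n + 1) → ℤ) → ℤ)
    (Δ : Polynomial (𝓞 K))
    (f : Fin r → MvPolynomial (Fin (n + 1)) (Polynomial (𝓞 K)))
    (F : ℕ → MvPolynomial (Fin (n + 1)) (Polynomial (𝓞 K))) (t : ℕ)
    (v : HeightOneSpectrum (𝓞 K)) : Prop :=
  (m : 𝓞 K) ∉ v.asIdeal ∧ Δ.eval (t : 𝓞 K) ∉ v.asIdeal ∧ ∀ j ∈ J, ∀ I : Finset (Fin r),
    I.Nonempty → SurjT m (Ideal.absNorm v.asIdeal) (∑ i ∈ I, d i + e j) (cond L b (c j) I) I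
      (fun i => red v (mem (f i) t)) (red v (mem (F j) t))

lemma goodX_mod (m : ℕ) (J : Finset ℕ) (L : Finset (Fin (n + 1) → ℤ)) (d : Fin r → ℕ)
    (b : Fin r → (Fin (n + 1) → ℤ) → ℤ) (e : ℕ → ℕ) (c : ℕ → (Fin (n + 1) → ℤ) → ℤ)
    (Δ : Polynomial (𝓞 K))
    (f : Fin r → MvPolynomial (Fin (n + 1)) (Polynomial (𝓞 K)))
    (F : ℕ → MvPolynomial (Fin (n + 1)) (Polynomial (𝓞 K)))
    (v : HeightOneSpectrum (𝓞 K)) (hv : (Ideal.absNorm v.asIdeal).Prime) (t : ℕ) :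
    GoodX m J L d b e c Δ f F t v ↔ GoodX m J L d b e c Δ f F (t % Ideal.absNorm v.asIdeal) v := by
  have := charP_res v hv
  have h1 : (t : v.asIdeal.ResidueField) =
      ((t % Ideal.absNorm v.asIdeal : ℕ) : v.asIdeal.ResidueField) :=
    (CharP.natCast_eq_natCast' _ (Ideal.absNorm v.asIdeal) (Nat.mod_modEq _ _)).symm
  have h2 : ∀ t : ℕ, Δ.eval (t : 𝓞 K) ∈ v.asIdeal ↔
      (Δ.map (algebraMap (𝓞 K) v.asIdeal.ResidueField)).eval (t : v.asIdeal.ResidueField) = 0 := by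
    intro t
    rw [← Ideal.algebraMap_residueField_eq_zero, Polynomial.eval_map,
      ← map_natCast (algebraMap (𝓞 K) v.asIdeal.ResidueField) t, Polynomial.eval₂_at_apply]
  unfold GoodX
  simp only [red_mem]
  rw [h2, h2, ← h1]

/-- The family `(∏ f_i) ^ m F_j`. -/
noncomputable def fam (m : ℕ) (f : Fin r → MvPolynomial (Fin (n + 1)) (Polynomial (𝓞 K)))
    (F : ℕ → MvPolynomial (Fin (n + 1)) (Polynomial (𝓞 K))) (x : Finset (Fin r) × ℕ) :
    MvPolynomial (Fin (n + 1)) (Polynomial (𝓞 K)) :=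
  (∏ i ∈ x.1, f i) ^ m * F x.2

lemma fam_sup {m : ℕ} {L : Finset (Fin (n + 1) → ℤ)} {d : Fin r → ℕ}
    {b : Fin r → (Fin (n + 1) → ℤ) → ℤ} {e : ℕ → ℕ} {c : ℕ → (Fin (n + 1) → ℤ) → ℤ}
    {f : Fin r → MvPolynomial (Fin (n + 1)) (Polynomial (𝓞 K))} (hf : ∀ i, Sb L (d i) (b i) (f i))
    {F : ℕ → MvPolynomial (Fin (n + 1)) (Polynomial (𝓞 K))} {j : ℕ}
    (hF : Sb L (m * e j) (fun ℓ => m * c j ℓ) (F j)) (I : Finset (Fin r)) :
    Sup m (∑ i ∈ I, d i + e j) (cond L b (c j) I) (fam m f F (I, j)) := by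
  have h1 := ((Sb.prod I fun i _ => hf i).pow m).mul hF
  intro u hu
  obtain ⟨h2, h3⟩ := h1 u hu
  refine ⟨by rw [h2]; ring, fun ℓ hℓ => ?_⟩
  refine le_trans (le_of_eq ?_) (h3 ℓ hℓ)
  unfold cond
  ring

lemma goodX_of (m : ℕ) (hm1 : 1 ≤ m) (J : Finset ℕ) (L : Finset (Fin (n + 1) → ℤ))
    (d : Fin r → ℕ) (b : Fin r → (Fin (n + 1) → ℤ) → ℤ) (e : ℕ → ℕ)
    (c : ℕ → (Fin (n + 1) → ℤ) → ℤ) (Δ : Polynomial (𝓞 K))
    (f : Fin r → MvPolynomial (Fin (n + 1)) (Polynomial (𝓞 K))) (hf : ∀ i, Sb L (d i) (b i) (f i))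
    (F : ℕ → MvPolynomial (Fin (n + 1)) (Polynomial (𝓞 K)))
    (hF : ∀ j ∈ J, Sb L (m * e j) (fun ℓ => m * c j ℓ) (F j))
    (t : ℕ) (v : HeightOneSpectrum (𝓞 K))
    (hq : ∃ e' : ℕ, e' * m + 1 = Ideal.absNorm v.asIdeal)
    (h : GoodL m ((univ.filter Finset.Nonempty) ×ˢ J) (fun x => ∑ i ∈ x.1, d i + e x.2)
      (fun x => cond L b (c x.2) x.1) Δ (fam m f F) t v) : GoodX m J L d b e c Δ f F t v := by
  classical
  obtain ⟨h1, h2, h3⟩ := h
  obtain ⟨e', he⟩ := hq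
  refine ⟨h1, h2, fun j hj I hI B hB => ?_⟩
  have h4 := h3 (I, j) (mem_product.mpr ⟨mem_filter.mpr ⟨mem_univ _, hI⟩, hj⟩)
  have hee : (Ideal.absNorm v.asIdeal - 1) / m = e' := by
    rw [← he, Nat.add_sub_cancel]
    exact Nat.mul_div_cancel _ (by omega)
  have hsup : Sup m (∑ i ∈ I, d i + e j) (cond L b (c j) I) (red v (mem (fam m f F (I, j)) t)) := by
    unfold red mem
    exact ((fam_sup hf (hF j hj) I).map _).map _
  obtain ⟨A, hA, hAB⟩ := cart_surjT m _ _ _ _ (by rw [hee]; exact he) _ hsup h4 B hB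
  refine ⟨A, hA, ?_⟩
  have h5 : red v (mem (fam m f F (I, j)) t) =
      (∏ i ∈ I, red v (mem (f i) t)) ^ m * red v (mem (F j) t) := by
    unfold fam red mem
    simp only [map_mul, map_pow, map_prod]
  rw [h5] at hAB
  exact hAB

open Classical in
/-- **Few members are bad modulo a place.** -/
theorem fewX (m : ℕ) (hm1 : 1 ≤ m) (ζ : K) (hζ : IsPrimitiveRoot ζ m) (J : Finset ℕ)
    (L : Finset (Fin (n + 1) → ℤ))
    (d : Fin r → ℕ) (b : Fin r → (Fin (n + 1) → ℤ) → ℤ) (e : ℕ → ℕ)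
    (c : ℕ → (Fin (n + 1) → ℤ) → ℤ)
    (f : Fin r → MvPolynomial (Fin (n + 1)) (Polynomial (𝓞 K))) (hf : ∀ i, Sb L (d i) (b i) (f i))
    (F : ℕ → MvPolynomial (Fin (n + 1)) (Polynomial (𝓞 K)))
    (hF : ∀ j ∈ J, Sb L (m * e j) (fun ℓ => m * c j ℓ) (F j))
    (s : ℕ → Option K)
    (hs : ∀ j ∈ J, ∀ I : Finset (Fin r), I.Nonempty →
      ∀ w : Ex n (∑ i ∈ I, d i + e j) (cond L b (c j) I), Mixed m (s j) I f (F j)
        (wx n (∑ i ∈ I, d i + e j) (cond L b (c j) I) w))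
    (Δ : Polynomial (𝓞 K)) (hΔ : Δ ≠ 0) (ε : ℝ) (hε : 0 < ε) :
    {v : HeightOneSpectrum (𝓞 K) | (Ideal.absNorm v.asIdeal).Prime ∧
      ¬ (((range (Ideal.absNorm v.asIdeal)).filter fun t : ℕ =>
        ¬ GoodX m J L d b e c Δ f F t v).card : ℝ) ≤ ε * Ideal.absNorm v.asIdeal}.Finite := by
  have hm0 : (m : 𝓞 K) ≠ 0 := by
    rw [Nat.cast_ne_zero]
    omega
  have h1 := fewL (n := n) m hm1 ζ hζ ((univ.filter Finset.Nonempty) ×ˢ J)
    (fun x : Finset (Fin r) × ℕ => ∑ i ∈ x.1, d i + e x.2)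
    (fun x => cond L b (c x.2) x.1) (fam m f F) (by
      rintro ⟨I, j⟩ hx
      exact fam_sup hf (hF j (mem_product.mp hx).2) I)
    (fun x => s x.2) (by
      rintro ⟨I, j⟩ hx w
      obtain ⟨hI, hj⟩ := mem_product.mp hx
      obtain ⟨lam, v, v', h2, h3, h4⟩ := hs j hj I (mem_filter.mp hI).2 w
      have h5 := ((VertK.prod I fun i hi => vertK_of (h2 i hi)).pow m).mul (vertK_of h3)
      rw [h4] at h5
      apply isVert_of (lam := lam)
      unfold fam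
      rw [map_mul, map_pow, map_prod]
      exact h5) Δ hΔ ε hε
  refine (h1.union (finite_mem (K := K) (m : 𝓞 K) hm0)).subset fun v hv => ?_
  by_cases hvm : (m : 𝓞 K) ∈ v.asIdeal
  · exact Or.inr hvm
  refine Or.inl ⟨hv.1, fun h => hv.2 (le_trans ?_ h)⟩
  have h2 : ((range (Ideal.absNorm v.asIdeal)).filter fun t : ℕ =>
      ¬ GoodX m J L d b e c Δ f F t v) ⊆ (range (Ideal.absNorm v.asIdeal)).filter fun t : ℕ =>
      ¬ GoodL m ((univ.filter Finset.Nonempty) ×ˢ J)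
        (fun x : Finset (Fin r) × ℕ => ∑ i ∈ x.1, d i + e x.2)
        (fun x => cond L b (c x.2) x.1) Δ (fam m f F) t v := by
    intro t ht
    rw [mem_filter] at ht ⊢
    exact ⟨ht.1, fun h3 => ht.2 (goodX_of m hm1 J L d b e c Δ f hf F hF t v
      (root_place hζ hm1 v hv.1 hvm) h3)⟩
  exact_mod_cast card_le_card h2

end

end Pool.Agent.Q267.TD
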