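import Pool.Agent.Q267.TD.Ci

/-!
# Complete intersections in toric varieties: any set of pairs `(I, j)`
-/

set_option autoImplicit false

open Finset

namespace Pool.Agent.Q267.TD

open Pool.Agent.Q267.AP
open NumberField IsDedekindDomain
open Pool.Agent.Q267.AM (root_place)
open Pool.Agent.Q267.OD (charP_res finite_mem red)

section

variable {K : Type} [Field K] [NumberField K] {n r : ℕ}

/-- Good places. -/
def GoodY (m : ℕ) (T : Finset (Finset (Fin r) × ℕ)) (L : Finset (Fin (n + 1) → ℤ)) (d : Fin r → ℕ)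
    (b : Fin r → (Fin (n + 1) → ℤ) → ℤ) (e : ℕ → ℕ) (c : ℕ → (Fin (n + 1) → ℤ) → ℤ)
    (Δ : Polynomial (𝓞 K))
    (f : Fin r → MvPolynomial (Fin (n + 1)) (Polynomial (𝓞 K)))
    (F : ℕ → MvPolynomial (Fin (n + 1)) (Polynomial (𝓞 K))) (t : ℕ)
    (v : HeightOneSpectrum (𝓞 K)) : Prop :=
  (m : 𝓞 K) ∉ v.asIdeal ∧ Δ.eval (t : 𝓞 K) ∉ v.asIdeal ∧ ∀ I j, (I, j) ∈ T →
    SurjT m (Ideal.absNorm v.asIdeal) (∑ i ∈ I, d i + e j) (cond L b (c j) I) I
      (fun i => red v (mem (f i) t)) (red v (mem (F j) t))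

lemma goodY_mod (m : ℕ) (T : Finset (Finset (Fin r) × ℕ)) (L : Finset (Fin (n + 1) → ℤ))
    (d : Fin r → ℕ)
    (b : Fin r → (Fin (n + 1) → ℤ) → ℤ) (e : ℕ → ℕ) (c : ℕ → (Fin (n + 1) → ℤ) → ℤ)
    (Δ : Polynomial (𝓞 K))
    (f : Fin r → MvPolynomial (Fin (n + 1)) (Polynomial (𝓞 K)))
    (F : ℕ → MvPolynomial (Fin (n + 1)) (Polynomial (𝓞 K)))
    (v : HeightOneSpectrum (𝓞 K)) (hv : (Ideal.absNorm v.asIdeal).Prime) (t : ℕ) :
    GoodY m T L d b e c Δ f F t v ↔ GoodY m T L d b e c Δ f F (t % Ideal.absNorm v.asIdeal) v := by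
  have := charP_res v hv
  have h1 : (t : v.asIdeal.ResidueField) =
      ((t % Ideal.absNorm v.asIdeal : ℕ) : v.asIdeal.ResidueField) :=
    (CharP.natCast_eq_natCast' _ (Ideal.absNorm v.asIdeal) (Nat.mod_modEq _ _)).symm
  have h2 : ∀ t : ℕ, Δ.eval (t : 𝓞 K) ∈ v.asIdeal ↔
      (Δ.map (algebraMap (𝓞 K) v.asIdeal.ResidueField)).eval (t : v.asIdeal.ResidueField) = 0 := by
    intro t
    rw [← Ideal.algebraMap_residueField_eq_zero, Polynomial.eval_map,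
      ← map_natCast (algebraMap (𝓞 K) v.asIdeal.ResidueField) t, Polynomial.eval₂_at_apply]
  unfold GoodY
  simp only [red_mem]
  rw [h2, h2, ← h1]

lemma goodY_of (m : ℕ) (hm1 : 1 ≤ m) (T : Finset (Finset (Fin r) × ℕ))
    (L : Finset (Fin (n + 1) → ℤ))
    (d : Fin r → ℕ) (b : Fin r → (Fin (n + 1) → ℤ) → ℤ) (e : ℕ → ℕ)
    (c : ℕ → (Fin (n + 1) → ℤ) → ℤ) (Δ : Polynomial (𝓞 K))
    (f : Fin r → MvPolynomial (Fin (n + 1)) (Polynomial (𝓞 K))) (hf : ∀ i, Sb L (d i) (b i) (f i))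
    (F : ℕ → MvPolynomial (Fin (n + 1)) (Polynomial (𝓞 K)))
    (hF : ∀ x ∈ T, Sb L (m * e x.2) (fun ℓ => m * c x.2 ℓ) (F x.2))
    (t : ℕ) (v : HeightOneSpectrum (𝓞 K))
    (hq : ∃ e' : ℕ, e' * m + 1 = Ideal.absNorm v.asIdeal)
    (h : GoodL m T (fun x => ∑ i ∈ x.1, d i + e x.2)
      (fun x => cond L b (c x.2) x.1) Δ (fam m f F) t v) : GoodY m T L d b e c Δ f F t v := by
  classical
  obtain ⟨h1, h2, h3⟩ := h
  obtain ⟨e', he⟩ := hq
  refine ⟨h1, h2, fun I j hIj B hB => ?_⟩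
  have h4 := h3 (I, j) hIj
  have hee : (Ideal.absNorm v.asIdeal - 1) / m = e' := by
    rw [← he, Nat.add_sub_cancel]
    exact Nat.mul_div_cancel _ (by omega)
  have hsup : Sup m (∑ i ∈ I, d i + e j) (cond L b (c j) I) (red v (mem (fam m f F (I, j)) t)) := by
    unfold red mem
    exact ((fam_sup hf (hF (I, j) hIj) I).map _).map _
  obtain ⟨A, hA, hAB⟩ := cart_surjT m _ _ _ _ (by rw [hee]; exact he) _ hsup h4 B hB
  refine ⟨A, hA, ?_⟩
  have h5 : red v (mem (fam m f F (I, j)) t) =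
      (∏ i ∈ I, red v (mem (f i) t)) ^ m * red v (mem (F j) t) := by
    unfold fam red mem
    simp only [map_mul, map_pow, map_prod]
  rw [h5] at hAB
  exact hAB

open Classical in
/-- **Few members are bad modulo a place.** -/
theorem fewY (m : ℕ) (hm1 : 1 ≤ m) (ζ : K) (hζ : IsPrimitiveRoot ζ m)
    (T : Finset (Finset (Fin r) × ℕ))
    (L : Finset (Fin (n + 1) → ℤ))
    (d : Fin r → ℕ) (b : Fin r → (Fin (n + 1) → ℤ) → ℤ) (e : ℕ → ℕ)
    (c : ℕ → (Fin (n + 1) → ℤ) → ℤ)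
    (f : Fin r → MvPolynomial (Fin (n + 1)) (Polynomial (𝓞 K))) (hf : ∀ i, Sb L (d i) (b i) (f i))
    (F : ℕ → MvPolynomial (Fin (n + 1)) (Polynomial (𝓞 K)))
    (hF : ∀ x ∈ T, Sb L (m * e x.2) (fun ℓ => m * c x.2 ℓ) (F x.2))
    (s : Finset (Fin r) × ℕ → Option K)
    (hs : ∀ I j, (I, j) ∈ T →
      ∀ w : Ex n (∑ i ∈ I, d i + e j) (cond L b (c j) I), Mixed m (s (I, j)) I f (F j)
        (wx n (∑ i ∈ I, d i + e j) (cond L b (c j) I) w))
    (Δ : Polynomial (𝓞 K)) (hΔ : Δ ≠ 0) (ε : ℝ) (hε : 0 < ε) :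
    {v : HeightOneSpectrum (𝓞 K) | (Ideal.absNorm v.asIdeal).Prime ∧
      ¬ (((range (Ideal.absNorm v.asIdeal)).filter fun t : ℕ =>
        ¬ GoodY m T L d b e c Δ f F t v).card : ℝ) ≤ ε * Ideal.absNorm v.asIdeal}.Finite := by
  have hm0 : (m : 𝓞 K) ≠ 0 := by
    rw [Nat.cast_ne_zero]
    omega
  have h1 := fewL (n := n) m hm1 ζ hζ T
    (fun x : Finset (Fin r) × ℕ => ∑ i ∈ x.1, d i + e x.2)
    (fun x => cond L b (c x.2) x.1) (fam m f F) (by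
      rintro ⟨I, j⟩ hx
      exact fam_sup hf (hF _ hx) I)
    s (by
      rintro ⟨I, j⟩ hx w
      obtain ⟨lam, v, v', h2, h3, h4⟩ := hs I j hx w
      have h5 := ((VertK.prod I fun i hi => vertK_of (h2 i hi)).pow m).mul (vertK_of h3)
      rw [h4] at h5
      apply isVert_of (lam := lam)
      unfold fam
      rw [map_mul, map_pow, map_prod]
      exact h5) Δ hΔ ε hε
  refine (h1.union (finite_mem (K := K) (m : 𝓞 K) hm0)).subset fun v hv => ?_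
  by_cases hvm : (m : 𝓞 K) ∈ v.asIdeal
  · exact Or.inr hvm
  refine Or.inl ⟨hv.1, fun h => hv.2 (le_trans ?_ h)⟩
  have h2 : ((range (Ideal.absNorm v.asIdeal)).filter fun t : ℕ =>
      ¬ GoodY m T L d b e c Δ f F t v) ⊆ (range (Ideal.absNorm v.asIdeal)).filter fun t : ℕ =>
      ¬ GoodL m T
        (fun x : Finset (Fin r) × ℕ => ∑ i ∈ x.1, d i + e x.2)
        (fun x => cond L b (c x.2) x.1) Δ (fam m f F) t v := by
    intro t ht
    rw [mem_filter] at ht ⊢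
    exact ⟨ht.1, fun h3 => ht.2 (goodY_of m hm1 T L d b e c Δ f hf F hF t v
      (root_place hζ hm1 v hv.1 hvm) h3)⟩
  exact_mod_cast card_le_card h2

end

end Pool.Agent.Q267.TD
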