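import Pool.Agent.Q267.TD.Place
import Pool.Agent.Q267.AM.Few

/-!
# Finitely many families with toric degenerations
-/

set_option autoImplicit false

open Finset

namespace Pool.Agent.Q267.TD

open Pool.Agent.Q267.ST Pool.Agent.Q267.AP
open Pool.Agent.Q267.AM (root_place)
open NumberField IsDedekindDomain
open Pool.Agent.Q267.OD (charP_res finite_mem red)
open Pool.Agent.Q267.DC (hm hm_map det_hm_map card_res)

section

variable {K : Type} [Field K] [NumberField K] {n : ℕ} {T : Type}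

/-- `m` and `Δ(t)` are prime to `v` and the Hasse-Witt matrices are invertible. -/
def GoodL (m : ℕ) (J : Finset T) (e : T → ℕ) (Λ : T → Cond n) (Δ : Polynomial (𝓞 K))
    (F : T → MvPolynomial (Fin (n + 1)) (Polynomial (𝓞 K))) (t : ℕ)
    (v : HeightOneSpectrum (𝓞 K)) : Prop :=
  (m : 𝓞 K) ∉ v.asIdeal ∧ Δ.eval (t : 𝓞 K) ∉ v.asIdeal ∧ ∀ j ∈ J,
    (hm ((Ideal.absNorm v.asIdeal - 1) / m) (Ideal.absNorm v.asIdeal) (wx n (e j) (Λ j))
      (red v (mem (F j) t))).det ≠ 0

lemma goodL_mod (m : ℕ) (J : Finset T) (e : T → ℕ) (Λ : T → Cond n) (Δ : Polynomial (𝓞 K))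
    (F : T → MvPolynomial (Fin (n + 1)) (Polynomial (𝓞 K)))
    (v : HeightOneSpectrum (𝓞 K)) (hv : (Ideal.absNorm v.asIdeal).Prime) (t : ℕ) :
    GoodL m J e Λ Δ F t v ↔ GoodL m J e Λ Δ F (t % Ideal.absNorm v.asIdeal) v := by
  have := charP_res v hv
  have h1 : (t : v.asIdeal.ResidueField) =
      ((t % Ideal.absNorm v.asIdeal : ℕ) : v.asIdeal.ResidueField) :=
    (CharP.natCast_eq_natCast' _ (Ideal.absNorm v.asIdeal) (Nat.mod_modEq _ _)).symm
  have h2 : ∀ t : ℕ, Δ.eval (t : 𝓞 K) ∈ v.asIdeal ↔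
      (Δ.map (algebraMap (𝓞 K) v.asIdeal.ResidueField)).eval (t : v.asIdeal.ResidueField) = 0 := by
    intro t
    rw [← Ideal.algebraMap_residueField_eq_zero, Polynomial.eval_map,
      ← map_natCast (algebraMap (𝓞 K) v.asIdeal.ResidueField) t, Polynomial.eval₂_at_apply]
  unfold GoodL
  simp only [red_mem]
  rw [h2, h2, ← h1]

open Classical in
/-- **Few members are bad modulo a place.** -/
theorem fewL (m : ℕ) (hm1 : 1 ≤ m) (ζ : K) (hζ : IsPrimitiveRoot ζ m) (J : Finset T) (e : T → ℕ)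
    (Λ : T → Cond n) (F : T → MvPolynomial (Fin (n + 1)) (Polynomial (𝓞 K)))
    (hF : ∀ j ∈ J, Sup m (e j) (Λ j) (F j)) (s : T → Option K)
    (hs : ∀ j ∈ J, ∀ w : Ex n (e j) (Λ j), IsVert (s j) (F j) (m • wx n (e j) (Λ j) w))
    (Δ : Polynomial (𝓞 K)) (hΔ : Δ ≠ 0) (ε : ℝ) (hε : 0 < ε) :
    {v : HeightOneSpectrum (𝓞 K) | (Ideal.absNorm v.asIdeal).Prime ∧
      ¬ (((range (Ideal.absNorm v.asIdeal)).filter fun t : ℕ => ¬ GoodL m J e Λ Δ F t v).card : ℝ) ≤
          ε * Ideal.absNorm v.asIdeal}.Finite := by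
  set ε' := ε / (2 * (J.card + 1)) with hε'
  have hε'0 : 0 < ε' := by positivity
  have h1 : ∀ j ∈ J, _ := fun j hj => placeT Pool.Agent.Q102.AP.spread m hm1 (F j) (hF j hj)
    (s j) (hs j hj) ε' hε'0
  have hm0 : (m : 𝓞 K) ≠ 0 := by
    rw [Nat.cast_ne_zero]
    omega
  refine ((((J.finite_toSet.biUnion fun j hj => h1 j (mem_coe.mp hj)).union
    (finite_mem (K := K) (m : 𝓞 K) hm0)).union
    (finite_mem (K := K) Δ.leadingCoeff (Polynomial.leadingCoeff_ne_zero.mpr hΔ))).union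
    (Pool.Agent.W352.ChAbs.finite_le (K := K) ⌈2 * (Δ.natDegree : ℝ) / ε⌉₊)).subset ?_
  rintro v ⟨hv, hv'⟩
  by_contra hno
  simp only [Set.mem_union, Set.mem_iUnion, Set.mem_ofPred_eq, not_or, not_and, not_not, not_le,
    not_exists, mem_coe] at hno
  obtain ⟨⟨⟨hplace, hvm⟩, hvΔ⟩, hvN⟩ := hno
  apply hv'
  obtain ⟨e', he⟩ := root_place hζ hm1 v hv hvm
  have hpl : ∀ j ∈ J, _ := fun j hj => hplace j hj hv e' he
  set p := Ideal.absNorm v.asIdeal with hp
  have hchar : CharP v.asIdeal.ResidueField p := charP_res v hv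
  have hfact : Fact p.Prime := ⟨hv⟩
  set κ := v.asIdeal.ResidueField with hκ
  set ρ : 𝓞 K →+* κ := algebraMap (𝓞 K) κ with hρ
  have hee : (p - 1) / m = e' := by
    rw [← he, Nat.add_sub_cancel]
    exact Nat.mul_div_cancel _ (by omega)
  have hred : ∀ (j : T) (t : ℕ), red v (mem (F j) t) =
      MvPolynomial.map (Polynomial.evalRingHom (t : κ))
        (MvPolynomial.map (Polynomial.mapRingHom ρ) (F j)) := by
    intro j t
    unfold red mem
    rw [MvPolynomial.map_map, MvPolynomial.map_map]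
    congr 2
    ext a
    · simp only [RingHom.coe_comp, Function.comp_apply, Polynomial.coe_evalRingHom,
        Polynomial.coe_mapRingHom, Polynomial.eval_C, Polynomial.map_C]
      rfl
    · simp
  set Bad := (range p).filter fun t : ℕ => ¬ GoodL m J e Λ Δ F t v with hBad
  set Z := Bad.image fun t : ℕ => (t : κ) with hZ
  have hZc : Z.card = Bad.card := by
    rw [hZ, card_image_of_injOn]
    intro a ha b hb hab
    exact CharP.natCast_injOn_Iio κ p
      (Set.mem_Iio.mpr (mem_range.mp (mem_filter.mp (mem_coe.mp ha)).1))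
      (Set.mem_Iio.mpr (mem_range.mp (mem_filter.mp (mem_coe.mp hb)).1)) hab
  have hΔk : Δ.map ρ ≠ 0 := by
    intro h0
    have h2 := congrArg (fun q => Polynomial.coeff q Δ.natDegree) h0
    simp only [Polynomial.coeff_map, Polynomial.coeff_zero] at h2
    rw [hρ, Ideal.algebraMap_residueField_eq_zero] at h2
    exact hvΔ h2
  set D : T → Polynomial κ := fun j => (hm e' p (wx n (e j) (Λ j))
    (MvPolynomial.map (Polynomial.mapRingHom ρ) (F j))).det with hD
  have hsub : Z ⊆ (Δ.map ρ).roots.toFinset ∪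
      J.biUnion fun j => Z.filter fun t => (D j).eval t = 0 := by
    intro z hz
    rw [mem_union]
    by_contra hno
    rw [not_or] at hno
    obtain ⟨h2, h3⟩ := hno
    obtain ⟨t, ht, rfl⟩ := mem_image.mp hz
    rw [Multiset.mem_toFinset, Polynomial.mem_roots hΔk] at h2
    refine (mem_filter.mp ht).2 ⟨hvm, ?_, ?_⟩
    · intro h4
      apply h2
      rw [Polynomial.IsRoot.def, Polynomial.eval_map, hρ,
        ← map_natCast (algebraMap (𝓞 K) v.asIdeal.ResidueField) t, Polynomial.eval₂_at_apply,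
        Ideal.algebraMap_residueField_eq_zero]
      exact h4
    · intro j hj h4
      apply h3
      rw [mem_biUnion]
      refine ⟨j, hj, mem_filter.mpr ⟨hz, ?_⟩⟩
      rw [hred, ← hp, hee, det_ev] at h4
      exact h4
  have h2 : ∀ j ∈ J, ((Z.filter fun t => (D j).eval t = 0).card : ℝ) ≤ ε' * p :=
    fun j hj => hpl j hj _ fun t ht => (mem_filter.mp ht).2
  have h3 : ((Δ.map ρ).roots.toFinset.card : ℝ) ≤ Δ.natDegree := by
    exact_mod_cast (Multiset.toFinset_card_le _).trans ((Polynomial.card_roots' _).trans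
      Polynomial.natDegree_map_le)
  have h4 : (Δ.natDegree : ℝ) ≤ ε / 2 * p := by
    have h5 : 2 * (Δ.natDegree : ℝ) / ε ≤ p :=
      (Nat.le_ceil _).trans (by exact_mod_cast hvN.le)
    rw [div_le_iff₀ hε] at h5
    linarith
  have h5 : (Z.card : ℝ) ≤ ((Δ.map ρ).roots.toFinset.card : ℝ) +
      ∑ j ∈ J, ((Z.filter fun t => (D j).eval t = 0).card : ℝ) := by
    have h6 := (card_le_card hsub).trans (card_union_le _ _)
    have h7 := card_biUnion_le (s := J) (t := fun j => Z.filter fun t => (D j).eval t = 0)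
    exact_mod_cast h6.trans (Nat.add_le_add_left h7 _)
  have h6 : ∑ j ∈ J, ((Z.filter fun t => (D j).eval t = 0).card : ℝ) ≤ ε / 2 * p := by
    refine (sum_le_sum h2).trans ?_
    rw [sum_const, nsmul_eq_mul]
    have h7 : (J.card : ℝ) * ε' ≤ ε / 2 := by
      rw [hε']
      have h8 : (0 : ℝ) ≤ J.card := Nat.cast_nonneg _
      rw [mul_div_assoc', div_le_div_iff₀ (by positivity) (by norm_num)]
      nlinarith
    calc (J.card : ℝ) * (ε' * p) = (J.card * ε') * p := by ring
      _ ≤ ε / 2 * p := mul_le_mul_of_nonneg_right h7 (Nat.cast_nonneg _)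
  rw [hZc] at h5
  linarith

end

end Pool.Agent.Q267.TD
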