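import Pool.Agent.Q267.TD.Trans
import Pool.Agent.Q267.AM.Place

/-!
# The zeros of the Hasse-Witt determinant at the places of a number field, toric degenerations
-/

set_option autoImplicit false

open Finset

namespace Pool.Agent.Q267.TD

open Pool.Agent.Q267.ST Pool.Agent.Q267.AP
open NumberField IsDedekindDomain
open Pool.Agent.Q267.OD (charP_res finite_mem)
open Pool.Agent.Q267.DC (hm hm_map det_hm_map card_res)

section

variable {K : Type} [Field K] [NumberField K] {n e : ℕ} {Λ : Cond n}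

/-- The order of a polynomial at the point `s` of the projective line. -/
noncomputable def ordAt (s : Option K) (c : Polynomial K) : ℤ :=
  match s with
  | some s₀ => (c.rootMultiplicity s₀ : ℤ)
  | none => -(c.natDegree : ℤ)

/-- The exponent `v` is a vertex of the regular subdivision defined by the orders at `s`. -/
def IsVert (s : Option K) (F : MvPolynomial (Fin (n + 1)) (Polynomial (𝓞 K)))
    (v : Fin (n + 1) →₀ ℕ) : Prop :=
  v ∈ F.support ∧ ∃ lam : Fin (n + 1) → ℚ, ∀ u ∈ F.support, u ≠ v →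
    ∑ i, lam i * ((u i : ℚ) - (v i : ℚ)) <
      (ordAt s ((MvPolynomial.coeff u F).map (algebraMap (𝓞 K) K)) : ℚ) -
        ordAt s ((MvPolynomial.coeff v F).map (algebraMap (𝓞 K) K))

/-- The leading coefficient at the point `s`. -/
noncomputable def lead (s : Option K) (c : Polynomial K) : K :=
  match s with
  | some s₀ => (c.comp (Polynomial.X + Polynomial.C s₀)).trailingCoeff
  | none => c.leadingCoeff

/-- The family over a finitely generated ring. -/
theorem overT (m : ℕ) (hm1 : 1 ≤ m) (F : MvPolynomial (Fin (n + 1)) (Polynomial (𝓞 K)))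
    (hF : Sup m e Λ F) (s : Option K) (hv : ∀ w : Ex n e Λ, IsVert s F (m • wx n e Λ w))
    (ε : ℝ) (hε : 0 < ε) :
    ∃ (A : Subalgebra (𝓞 K) K) (s₀ : K) (s₁ a : A) (p₀ : ℕ),
      A.FG ∧ (s₁ : K) = s₀ ∧ a ≠ 0 ∧
      ∀ (p : ℕ) (k : Type) [Field k] [CharP k p] (φ : A →+* k),
      p.Prime → p₀ ≤ p → φ a ≠ 0 → φ s₁ ^ p = φ s₁ → ∀ e' : ℕ, e' * m + 1 = p →
      ∀ Z : Finset k, (∀ t ∈ Z, t ^ p = t ∧ (hm e' p (wx n e Λ) (MvPolynomial.map
        (Polynomial.mapRingHom (φ.comp (algebraMap (𝓞 K) A))) F)).det.eval t = 0) →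
        (Z.card : ℝ) ≤ ε * p := by
  classical
  set cK : (Fin (n + 1) →₀ ℕ) → Polynomial K := fun u =>
    (MvPolynomial.coeff u F).map (algebraMap (𝓞 K) K) with hcK
  set s₀ : K := s.getD 0 with hs₀
  have hOK : Function.Injective (algebraMap (𝓞 K) K) := IsFractionRing.injective (𝓞 K) K
  have hcK0 : ∀ u ∈ F.support, cK u ≠ 0 := fun u hu =>
    (Polynomial.map_ne_zero_iff hOK).mpr (MvPolynomial.mem_support_iff.mp hu)
  set S : Finset K := (univ.image fun w : Ex n e Λ => (lead s (cK (m • wx n e Λ w)))⁻¹) ∪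
    {((m : K) ^ 2)⁻¹, s₀} with hS
  set A := Algebra.adjoin (𝓞 K) (S : Set K) with hA
  have hsub : ∀ x ∈ S, x ∈ A := fun x hx => Algebra.subset_adjoin (mem_coe.mpr hx)
  have hl' : ∀ w : Ex n e Λ, (lead s (cK (m • wx n e Λ w)))⁻¹ ∈ A := fun w => hsub _ (by
    rw [hS]
    exact mem_union_left _ (mem_image.mpr ⟨w, mem_univ _, rfl⟩))
  have hm' : ((m : K) ^ 2)⁻¹ ∈ A := hsub _ (by
    rw [hS]
    exact mem_union_right _ (mem_insert_self _ _))
  have hs' : s₀ ∈ A := hsub _ (by
    rw [hS]
    exact mem_union_right _ (mem_insert_of_mem (mem_singleton_self _)))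
  have hinj : Function.Injective (A.val : A →+* K) := Subtype.val_injective
  have hm0 : (m : K) ^ 2 ≠ 0 := by
    apply pow_ne_zero
    rw [Nat.cast_ne_zero]
    omega
  have hOA : Function.Injective (algebraMap (𝓞 K) A) := by
    intro x y hxy
    have h2 := congrArg (fun z : A => (z : K)) hxy
    exact hOK h2
  set fA := MvPolynomial.map (Polynomial.mapRingHom (algebraMap (𝓞 K) A)) F with hfA
  have hμ : (m : A) ^ 2 * ⟨_, hm'⟩ = 1 := by
    apply hinj
    rw [map_mul, map_pow, map_natCast, map_one]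
    exact mul_inv_cancel₀ hm0
  have hfAs : Sup m e Λ fA := hF.map _
  have hcoA : ∀ u, MvPolynomial.coeff u fA = (MvPolynomial.coeff u F).map (algebraMap (𝓞 K) A) := by
    intro u
    rw [hfA, MvPolynomial.coeff_map, Polynomial.coe_mapRingHom]
  have hmapK : ∀ c : Polynomial (𝓞 K), (c.map (algebraMap (𝓞 K) A)).map (A.val : A →+* K) =
      c.map (algebraMap (𝓞 K) K) := by
    intro c
    rw [Polynomial.map_map]
    rfl
  have hphi : ∀ (k : Type) [Field k] (φ : A →+* k), MvPolynomial.map (Polynomial.mapRingHom φ) fA =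
      MvPolynomial.map (Polynomial.mapRingHom (φ.comp (algebraMap (𝓞 K) A))) F := by
    intro k _ φ
    rw [hfA, MvPolynomial.map_map, Polynomial.mapRingHom_comp]
  have hFG : A.FG := Subalgebra.fg_adjoin_finset S
  refine ⟨A, s₀, ⟨_, hs'⟩, ?_⟩
  have hleadinv : ∀ w : Ex n e Λ, ∀ x : A,
      (x : K) = lead s (cK (m • wx n e Λ w)) → lead s (cK (m • wx n e Λ w)) ≠ 0 →
        x * ⟨_, hl' w⟩ = 1 := by
    intro w x hx h0
    apply hinj
    rw [map_mul, map_one]
    change (x : K) * (lead s (cK (m • wx n e Λ w)))⁻¹ = 1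
    rw [hx]
    exact mul_inv_cancel₀ h0
  cases s with
  | some t₀ =>
    have hst : s₀ = t₀ := rfl
    set s₁ : A := ⟨s₀, hs'⟩ with hs₁
    have hco : ∀ u, MvPolynomial.coeff u (MvPolynomial.map
        (Polynomial.compRingHom (Polynomial.X + Polynomial.C s₁)) fA) =
        ((MvPolynomial.coeff u F).map (algebraMap (𝓞 K) A)).comp
          (Polynomial.X + Polynomial.C s₁) := by
      intro u
      rw [MvPolynomial.coeff_map, hcoA]
      rfl
    have hcomp : ∀ u, (((MvPolynomial.coeff u F).map (algebraMap (𝓞 K) A)).comp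
          (Polynomial.X + Polynomial.C s₁)).map (A.val : A →+* K) =
          (cK u).comp (Polynomial.X + Polynomial.C t₀) := by
      intro u
      rw [Polynomial.map_comp, hmapK, Polynomial.map_add, Polynomial.map_X, Polynomial.map_C]
      rfl
    have htr : ∀ u, (((MvPolynomial.coeff u F).map (algebraMap (𝓞 K) A)).comp
          (Polynomial.X + Polynomial.C s₁)).natTrailingDegree = (cK u).rootMultiplicity t₀ := by
      intro u
      rw [← natTrailingDegree_map_inj (A.val : A →+* K) hinj, hcomp,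
        Polynomial.rootMultiplicity_eq_natTrailingDegree]
    obtain ⟨p₀, a, ha, h⟩ := concTs hm1 _ hμ fA hfAs s₁ (fun w => by
      obtain ⟨hw1, lam, hlam⟩ := hv w
      refine ⟨⟨_, hleadinv w _ ?_ ?_⟩, lam, fun u hu hne => ?_⟩
      · rw [hco]
        change (A.val : A →+* K) _ = _
        rw [← trailingCoeff_map_inj (A.val : A →+* K) hinj, hcomp]
        rfl
      · change ((cK (m • wx n e Λ w)).comp (Polynomial.X + Polynomial.C t₀)).trailingCoeff ≠ 0
        rw [Ne, Polynomial.trailingCoeff_eq_zero, Polynomial.comp_X_add_C_eq_zero_iff]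
        exact hcK0 _ hw1
      · have hu' : u ∈ F.support := by
          rw [MvPolynomial.mem_support_iff, hco] at hu
          rw [MvPolynomial.mem_support_iff]
          intro h0
          rw [h0, Polynomial.map_zero, Polynomial.zero_comp] at hu
          exact hu rfl
        rw [hco, hco, htr, htr]
        have h1 := hlam u hu' hne
        have h2 : ∀ v, ((ordAt (some t₀) (cK v) : ℤ) : ℚ) =
            (((cK v).rootMultiplicity t₀ : ℕ) : ℚ) := fun v => by
          change ((((cK v).rootMultiplicity t₀ : ℕ) : ℤ) : ℚ) = _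
          rw [Int.cast_natCast]
        change _ < ((ordAt (some t₀) (cK u) : ℤ) : ℚ) -
          ((ordAt (some t₀) (cK (m • wx n e Λ w)) : ℤ) : ℚ) at h1
        rw [h2, h2] at h1
        exact h1) ε hε
    refine ⟨a, p₀, hFG, rfl, ha, ?_⟩
    intro p k _ _ φ hpp hp0 hφ hs e' he Z hZ
    exact h p k φ hpp hp0 hφ hs e' he Z fun t ht => by rw [hphi]; exact hZ t ht
  | none =>
    set d := F.support.sup fun v => (MvPolynomial.coeff v F).natDegree with hd
    have hdeg : ∀ u, (MvPolynomial.coeff u fA).natDegree = (MvPolynomial.coeff u F).natDegree := by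
      intro u
      rw [hcoA]
      exact Polynomial.natDegree_map_eq_of_injective hOA _
    have hdegK : ∀ u, (cK u).natDegree = (MvPolynomial.coeff u F).natDegree := fun u =>
      Polynomial.natDegree_map_eq_of_injective hOK _
    have hd1 : ∀ u, (MvPolynomial.coeff u fA).natDegree ≤ d := by
      intro u
      rw [hdeg]
      by_cases hu : u ∈ F.support
      · exact le_sup (f := fun v => (MvPolynomial.coeff v F).natDegree) hu
      · rw [MvPolynomial.notMem_support_iff.mp hu, Polynomial.natDegree_zero]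
        exact Nat.zero_le _
    have hne0 : ∀ u ∈ F.support, MvPolynomial.coeff u fA ≠ 0 := fun u hu => by
      rw [hcoA]
      exact (Polynomial.map_ne_zero_iff hOA).mpr (MvPolynomial.mem_support_iff.mp hu)
    obtain ⟨p₀, a, ha, h⟩ := concTi hm1 _ hμ fA hfAs d hd1 (fun f' hf' w => by
      obtain ⟨hw1, lam, hlam⟩ := hv w
      refine ⟨⟨_, hleadinv w _ ?_ ?_⟩, lam, fun u hu hne => ?_⟩
      · rw [hf', trailingCoeff_reflect (hne0 _ hw1) (hd1 _)]
        change (A.val : A →+* K) _ = (cK (m • wx n e Λ w)).leadingCoeff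
        unfold Polynomial.leadingCoeff
        rw [hdeg, hdegK, hcoA, Polynomial.coeff_map, hcK]
        simp only
        rw [Polynomial.coeff_map]
        rfl
      · exact Polynomial.leadingCoeff_ne_zero.mpr (hcK0 _ hw1)
      · have hu' : u ∈ F.support := by
          rw [MvPolynomial.mem_support_iff, hf', hcoA] at hu
          rw [MvPolynomial.mem_support_iff]
          intro h0
          rw [h0, Polynomial.map_zero, Polynomial.reflect_zero] at hu
          exact hu rfl
        rw [hf', hf', natTrailingDegree_reflect (hne0 _ hu') (hd1 _),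
          natTrailingDegree_reflect (hne0 _ hw1) (hd1 _), Nat.cast_sub (hd1 _),
          Nat.cast_sub (hd1 _), hdeg, hdeg]
        have h1 := hlam u hu' hne
        have h2 : ∀ v, (ordAt (none : Option K) (cK v) : ℤ) =
            -((MvPolynomial.coeff v F).natDegree : ℤ) := fun v => by
          rw [← hdegK]
          rfl
        change _ < ((ordAt (none : Option K) (cK u) : ℤ) : ℚ) -
          ((ordAt (none : Option K) (cK (m • wx n e Λ w)) : ℤ) : ℚ) at h1
        rw [h2, h2, Int.cast_neg, Int.cast_neg, Int.cast_natCast, Int.cast_natCast] at h1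
        linarith) ε hε
    refine ⟨a, p₀, hFG, rfl, ha, ?_⟩
    intro p k _ _ φ hpp hp0 hφ _ e' he Z hZ
    exact h p k φ hpp hp0 hφ e' he Z fun t ht => by rw [hphi]; exact hZ t ht

/-- **The zeros of the Hasse-Witt determinant modulo a place.** -/
theorem placeT (hSpread : S_Spread) (m : ℕ) (hm1 : 1 ≤ m)
    (F : MvPolynomial (Fin (n + 1)) (Polynomial (𝓞 K)))
    (hF : Sup m e Λ F) (s : Option K) (hv : ∀ w : Ex n e Λ, IsVert s F (m • wx n e Λ w))
    (ε : ℝ) (hε : 0 < ε) :
    {v : HeightOneSpectrum (𝓞 K) | (Ideal.absNorm v.asIdeal).Prime ∧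
      ¬ ∀ e' : ℕ, e' * m + 1 = Ideal.absNorm v.asIdeal →
      ∀ Z : Finset v.asIdeal.ResidueField, (∀ t ∈ Z, (hm e' (Ideal.absNorm v.asIdeal) (wx n e Λ)
        (MvPolynomial.map (Polynomial.mapRingHom (algebraMap (𝓞 K) v.asIdeal.ResidueField))
          F)).det.eval t = 0) → (Z.card : ℝ) ≤ ε * Ideal.absNorm v.asIdeal}.Finite := by
  classical
  obtain ⟨A, s₀, s₁, a, p₀, hFG, hs, ha, h⟩ := overT m hm1 F hF s hv ε hε
  have hinj : Function.Injective (A.val : A →+* K) := Subtype.val_injective
  have halg : ∀ x : 𝓞 K, ((algebraMap (𝓞 K) A x : A) : K) = algebraMap (𝓞 K) K x := fun x => rfl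
  have h1 : Function.Injective (algebraMap (𝓞 K) A) := by
    intro x y hxy
    have h2 := congrArg (fun z : A => (z : K)) hxy
    exact (IsFractionRing.injective (𝓞 K) K) h2
  have h2 : Algebra.FiniteType (𝓞 K) A := (Subalgebra.fg_iff_finiteType A).mp hFG
  have h3 : Algebra.IsAlgebraic (𝓞 K) A := by
    have h4 : Algebra.IsAlgebraic (𝓞 K) K :=
      (IsFractionRing.comap_isAlgebraic_iff (A := 𝓞 K) (K := K) (C := K)).mpr
        inferInstance
    refine ⟨fun x => ?_⟩
    exact (isAlgebraic_algHom_iff A.val Subtype.val_injective).mp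
      (h4.isAlgebraic (x : K))
  have hfin := hSpread (𝓞 K) A h1 h2 h3 a ha
  obtain ⟨x, y, hy, hxy⟩ := IsFractionRing.div_surjective (A := 𝓞 K) s₀
  have hy0 : y ≠ 0 := nonZeroDivisors.ne_zero hy
  have hyA : algebraMap (𝓞 K) A y * s₁ = algebraMap (𝓞 K) A x := by
    apply hinj
    rw [map_mul]
    change ((algebraMap (𝓞 K) A y : A) : K) * (s₁ : K) = ((algebraMap (𝓞 K) A x : A) : K)
    rw [halg, halg, hs, ← hxy]
    have : algebraMap (𝓞 K) K y ≠ 0 := by
      rw [Ne, FaithfulSMul.algebraMap_eq_zero_iff]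
      exact hy0
    field_simp
  refine ((hfin.union (finite_mem (K := K) y hy0)).union
    (Pool.Agent.W352.ChAbs.finite_le (K := K) p₀)).subset ?_
  rintro v ⟨hv, hv'⟩
  by_contra hno
  simp only [Set.mem_union, Set.mem_ofPred_eq, not_or, not_not, not_le] at hno
  obtain ⟨⟨⟨k, hk, φ, hφ, hker⟩, hyv⟩, hp0⟩ := hno
  apply hv'
  intro e' he Z hZ
  set p := Ideal.absNorm v.asIdeal with hp
  have hcharκ := charP_res v hv
  have hchar : CharP k p := by
    rw [CharP.charP_iff_prime_eq_zero hv]
    have h5 : (p : 𝓞 K) ∈ v.asIdeal := Ideal.absNorm_mem v.asIdeal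
    rw [← hker, RingHom.mem_ker, map_natCast] at h5
    exact h5
  have hunits : v.asIdeal.primeCompl ≤
      Submonoid.comap (φ.comp (algebraMap (𝓞 K) A)) (IsUnit.submonoid k) := fun z hz => by
    refine IsUnit.mk0 _ fun h0 => hz ?_
    rw [← hker]
    exact h0
  set ι : v.asIdeal.ResidueField →+* k := Ideal.ResidueField.lift v.asIdeal
    (φ.comp (algebraMap (𝓞 K) A)) hker.ge hunits with hι
  have hcomp : ι.comp (algebraMap (𝓞 K) v.asIdeal.ResidueField) =
      φ.comp (algebraMap (𝓞 K) A) := by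
    ext z
    exact Ideal.ResidueField.lift_algebraMap v.asIdeal (φ.comp (algebraMap (𝓞 K) A)) hker.ge hunits z
  have hcn := card_res v
  have hfinite : Finite v.asIdeal.ResidueField :=
    Nat.finite_of_card_ne_zero (by rw [hcn]; exact hv.ne_zero)
  have : Fintype v.asIdeal.ResidueField := Fintype.ofFinite _
  rw [Nat.card_eq_fintype_card] at hcn
  have hpow : ∀ t : v.asIdeal.ResidueField, t ^ p = t := fun t => by
    rw [hp, ← hcn]
    exact FiniteField.pow_card t
  have hs1 : φ s₁ ^ p = φ s₁ := by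
    have h5 := congrArg φ hyA
    rw [map_mul] at h5
    have h6 : ∀ z : 𝓞 K, φ (algebraMap (𝓞 K) A z) =
        ι (algebraMap (𝓞 K) v.asIdeal.ResidueField z) := fun z => (RingHom.congr_fun hcomp z).symm
    rw [h6, h6] at h5
    have h7 : ι (algebraMap (𝓞 K) v.asIdeal.ResidueField y) ≠ 0 := by
      rw [Ne, map_eq_zero, Ideal.algebraMap_residueField_eq_zero]
      exact hyv
    have h8 : φ s₁ = ι ((algebraMap (𝓞 K) v.asIdeal.ResidueField x) /
        (algebraMap (𝓞 K) v.asIdeal.ResidueField y)) := by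
      rw [map_div₀, eq_div_iff h7, mul_comm]
      exact h5
    rw [h8, ← map_pow, hpow]
  have h5 := h p k φ hv (le_of_lt (by simpa using hp0)) hφ hs1 e' he (Z.image ι) (by
    intro t ht
    obtain ⟨z, hz, rfl⟩ := mem_image.mp ht
    refine ⟨by rw [← map_pow, hpow], ?_⟩
    rw [← hcomp, ← Polynomial.mapRingHom_comp, ← MvPolynomial.map_map, det_hm_map,
      Polynomial.coe_mapRingHom, Polynomial.eval_map, Polynomial.eval₂_at_apply, hZ z hz, map_zero])
  rwa [card_image_of_injective _ ι.injective] at h5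

end

end Pool.Agent.Q267.TD
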