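import Pool.Agent.Q174.AP.Star
import Pool.Agent.Q267.AM.Soft

/-!
# Torus charts: the periods, the Frobenius structure and the normal form
-/

set_option autoImplicit false

open Finset

namespace Pool.Agent.Q267.TD

open Pool.Agent.Q267.ST Pool.Agent.Q267.AP
open Pool.Agent.Q174.AP (Lf Lf_sum Lf_monomial tau tau_apply cx_scal claim1 claim3 cx_X_pow_mul
  coeff_scal)
open Pool.Agent.Q267.DC (hm hm_map det_hm_map)

section

variable {ι : Type} [Fintype ι] [DecidableEq ι]

/-- The periods of a torus chart. -/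
noncomputable def tper {A : Type} [CommRing A] (ω : ι → ℕ) (Ψ : PowerSeries (LP ι A))
    (w : ι →₀ ℕ) : PowerSeries A :=
  PowerSeries.X ^ (∑ i, ω i * (w i - 1)) * cx (fun i => -(w i : ℤ)) Ψ

omit [DecidableEq ι] in
lemma one_apply' (i : ι) : one ι i = 1 := by
  unfold one
  rw [Finsupp.equivFunOnFinite_symm_apply_apply]

omit [DecidableEq ι] in
lemma sub_zexp (w : ι →₀ ℕ) (hw : ∀ i, 1 ≤ w i) :
    ((fun _ => -1) - zexp (w - one ι) : ι → ℤ) = fun i => -(w i : ℤ) := by
  funext i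
  simp only [Pi.sub_apply, zexp, Finsupp.tsub_apply, one_apply']
  have := hw i
  omega

/-- **The periods and the Hasse-Witt matrix.** -/
theorem starT (hF : S_FrobG) (hC : S_CxMul) {J k : Type} [Fintype J] [DecidableEq J] [Field k]
    (p : ℕ) [Fact p.Prime] [CharP k p] (hp : p ≠ 0) (w : J → ι →₀ ℕ) (hw : Function.Injective w)
    (hw1 : ∀ j i, 1 ≤ w j i) (m e c : ℕ) (he : e * m + 1 = p) (f : MvPolynomial ι (Polynomial k))
    (hs : ∀ l, ∀ v ∈ (MvPolynomial.monomial (w l) 1 * f ^ e).support,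
      (∃ v' : ι →₀ ℕ, v = p • v') → ∃ i, v = p • w i)
    (ω : ι → ℕ) (γ : k) (N : ℕ) (κ : k) (Ψ g : PowerSeries (LP ι k))
    (hΨ : Ψ ^ m * g = cst (PowerSeries.C κ))
    (hg : toL (scal ω γ N f) = PowerSeries.X ^ (m * c) * g) (l : J) :
    PowerSeries.C (κ ^ e) * PowerSeries.X ^ ((p - 1) * c) * tper ω Ψ (w l) =
      PowerSeries.X ^ ((p - 1) * ∑ i, ω i) *
      ∑ i, PowerSeries.expand p hp (PowerSeries.map (frobenius k p) (tper ω Ψ (w i))) *
        (((hm e p w f i l).comp (Polynomial.C γ * Polynomial.X ^ N) : Polynomial k) :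
          PowerSeries k) := by
  have h1 : cst (PowerSeries.C (κ ^ e)) * Ψ = Ψ ^ p * g ^ e := by
    have h2 : Ψ ^ p * g ^ e = Ψ * (Ψ ^ m * g) ^ e := by
      rw [mul_pow, ← pow_mul, ← he, pow_succ, mul_comm e m]
      ring
    rw [h2, hΨ, ← map_pow, ← map_pow, mul_comm]
  have hpe : (p - 1) * c = m * c * e := by
    have : p - 1 = e * m := by omega
    rw [this]
    ring
  have h2 : cst (PowerSeries.C (κ ^ e)) * (PowerSeries.X ^ ((p - 1) * c) *
      (toL (scal ω γ N (MvPolynomial.monomial (w l - one ι) 1)) * Ψ)) =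
      toL (scal ω γ N (MvPolynomial.monomial (w l - one ι) 1 * f ^ e)) * Ψ ^ p := by
    have h7 : toL (scal ω γ N (MvPolynomial.monomial (w l - one ι) 1 * f ^ e)) =
        toL (scal ω γ N (MvPolynomial.monomial (w l - one ι) 1)) * toL (scal ω γ N f) ^ e := by
      rw [map_mul, map_mul, map_pow, map_pow]
    rw [h7, hg, hpe, mul_pow, ← pow_mul]
    calc _ = PowerSeries.X ^ (m * c * e) * toL (scal ω γ N (MvPolynomial.monomial (w l - one ι) 1)) *
          (cst (PowerSeries.C (κ ^ e)) * Ψ) := by ring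
      _ = _ := by
        rw [h1]
        ring
  have h3 := congrArg (cx (fun _ => -1)) h2
  rw [cx_cst_mul, cx_X_pow_mul, cx_scal hC, Lf_monomial, sub_zexp _ (hw1 l), map_one, mul_one,
    claim1 hF hC p hp, claim3 p hp w hw hw1 e f l (hs l), Lf_sum] at h3
  have h4 : ∑ i, ω i * (w l - one ι) i = ∑ i, ω i * (w l i - 1) :=
    sum_congr rfl fun i _ => by rw [Finsupp.tsub_apply, one_apply']
  rw [h4] at h3
  have h5 : PowerSeries.C (κ ^ e) * PowerSeries.X ^ ((p - 1) * c) * tper ω Ψ (w l) =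
      PowerSeries.C (κ ^ e) * (PowerSeries.X ^ ((p - 1) * c) *
        (cx (fun i => -(w l i : ℤ)) Ψ * PowerSeries.X ^ ∑ i, ω i * (w l i - 1))) := by
    unfold tper
    ring
  rw [h5, h3]
  congr 1
  refine sum_congr rfl fun i _ => ?_
  rw [Lf_monomial, sub_zexp _ (hw1 i), tau_apply]
  unfold tper
  rw [map_mul, map_mul, map_pow, map_pow, PowerSeries.map_X, PowerSeries.expand_X, ← pow_mul]
  have h6 : ∑ i', ω i' * (w i - one ι) i' = ∑ i', ω i' * (w i i' - 1) :=
    sum_congr rfl fun i' _ => by rw [Finsupp.tsub_apply, one_apply']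
  rw [h6]
  ring

end

end Pool.Agent.Q267.TD
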