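import Pool.Agent.Q267.TD.Conc
import Pool.Agent.Q267.AM.Trans

/-!
# Toric degenerations at a point or at infinity
-/

set_option autoImplicit false

open Finset

namespace Pool.Agent.Q267.TD

open Pool.Agent.Q267.ST Pool.Agent.Q267.AP
open Pool.Agent.Q267.DC (hm hm_map det_hm_map)

section trail

lemma natTrailingDegree_map_inj {A B : Type} [CommRing A] [CommRing B] (φ : A →+* B)
    (hφ : Function.Injective φ) (c : Polynomial A) :
    (c.map φ).natTrailingDegree = c.natTrailingDegree := by
  by_cases hc : c = 0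
  · rw [hc, Polynomial.map_zero, Polynomial.natTrailingDegree_zero,
      Polynomial.natTrailingDegree_zero]
  · have hc' : c.map φ ≠ 0 := (Polynomial.map_ne_zero_iff hφ).mpr hc
    apply le_antisymm
    · apply Polynomial.natTrailingDegree_le_of_ne_zero
      rw [Polynomial.coeff_map]
      intro h0
      rw [map_eq_zero_iff φ hφ] at h0
      exact hc (Polynomial.trailingCoeff_eq_zero.mp h0)
    · apply Polynomial.natTrailingDegree_le_of_ne_zero
      intro h0
      have h1 : (c.map φ).coeff (c.map φ).natTrailingDegree = 0 := by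
        rw [Polynomial.coeff_map, h0, map_zero]
      exact hc' (Polynomial.trailingCoeff_eq_zero.mp h1)

lemma trailingCoeff_map_inj {A B : Type} [CommRing A] [CommRing B] (φ : A →+* B)
    (hφ : Function.Injective φ) (c : Polynomial A) :
    (c.map φ).trailingCoeff = φ c.trailingCoeff := by
  unfold Polynomial.trailingCoeff
  rw [natTrailingDegree_map_inj φ hφ, Polynomial.coeff_map]

lemma natTrailingDegree_reflect {A : Type} [CommRing A] {d : ℕ} {c : Polynomial A} (hc : c ≠ 0)
    (hd : c.natDegree ≤ d) : (Polynomial.reflect d c).natTrailingDegree = d - c.natDegree := by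
  have hco : ∀ i, i ≤ d → (Polynomial.reflect d c).coeff i = c.coeff (d - i) := fun i hi => by
    rw [Polynomial.coeff_reflect, Polynomial.revAt_le hi]
  have h1 : (Polynomial.reflect d c).coeff (d - c.natDegree) = c.leadingCoeff := by
    rw [hco _ (Nat.sub_le _ _), Nat.sub_sub_self hd]
    rfl
  have h2 : (Polynomial.reflect d c).coeff (d - c.natDegree) ≠ 0 := by
    rw [h1]
    exact Polynomial.leadingCoeff_ne_zero.mpr hc
  apply le_antisymm
  · exact Polynomial.natTrailingDegree_le_of_ne_zero h2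
  · by_contra hno
    push Not at hno
    have h3 : (Polynomial.reflect d c).coeff (Polynomial.reflect d c).natTrailingDegree ≠ 0 := by
      intro h0
      have h4 : Polynomial.reflect d c = 0 := Polynomial.trailingCoeff_eq_zero.mp h0
      rw [h4, Polynomial.coeff_zero] at h2
      exact h2 rfl
    apply h3
    rw [hco _ (by omega)]
    apply Polynomial.coeff_eq_zero_of_natDegree_lt
    omega

lemma trailingCoeff_reflect {A : Type} [CommRing A] {d : ℕ} {c : Polynomial A} (hc : c ≠ 0)
    (hd : c.natDegree ≤ d) : (Polynomial.reflect d c).trailingCoeff = c.leadingCoeff := by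
  unfold Polynomial.trailingCoeff
  rw [natTrailingDegree_reflect hc hd, Polynomial.coeff_reflect, Polynomial.revAt_le (Nat.sub_le _ _),
    Nat.sub_sub_self hd]
  rfl

end trail

section

variable {n e m : ℕ} {Λ : Cond n} {A : Type} [CommRing A] [IsDomain A] [CharZero A]

/-- A toric degeneration at the point `s₀`. -/
theorem concTs (hm1 : 1 ≤ m) (μ : A) (hμ : (m : A) ^ 2 * μ = 1)
    (f : MvPolynomial (Fin (n + 1)) (Polynomial A)) (hf : Sup m e Λ f) (s₀ : A)
    (hv : ∀ w : Ex n e Λ, VertA (MvPolynomial.map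
      (Polynomial.compRingHom (Polynomial.X + Polynomial.C s₀)) f) (m • wx n e Λ w))
    (ε : ℝ) (hε : 0 < ε) :
    ∃ (p₀ : ℕ) (a : A), a ≠ 0 ∧ ∀ (p : ℕ) (k : Type) [Field k] [CharP k p] (φ : A →+* k),
      p.Prime → p₀ ≤ p → φ a ≠ 0 → φ s₀ ^ p = φ s₀ → ∀ e' : ℕ, e' * m + 1 = p →
      ∀ Z : Finset k, (∀ t ∈ Z, t ^ p = t ∧ (hm e' p (wx n e Λ) (MvPolynomial.map
        (Polynomial.mapRingHom φ) f)).det.eval t = 0) → (Z.card : ℝ) ≤ ε * p := by
  classical
  set f' := MvPolynomial.map (Polynomial.compRingHom (Polynomial.X + Polynomial.C s₀)) f with hf'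
  obtain ⟨p₀, a, ha, h⟩ := concT n e m Λ hm1 μ hμ f' (hf.map _) hv ε hε
  refine ⟨p₀, a, ha, ?_⟩
  intro p k _ _ φ hpp hp0 hφ hs e' he Z hZ
  have hfact : Fact p.Prime := ⟨hpp⟩
  have h1 := h p k φ hpp hp0 hφ e' he (Z.image fun t => t - φ s₀) (by
    intro t ht
    obtain ⟨z, hz, rfl⟩ := mem_image.mp ht
    obtain ⟨hz1, hz2⟩ := hZ z hz
    refine ⟨by rw [sub_pow_char, hz1, hs], ?_⟩
    have h2 : MvPolynomial.map (Polynomial.mapRingHom φ) f' =
        MvPolynomial.map (Polynomial.compRingHom (Polynomial.X + Polynomial.C (φ s₀)))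
          (MvPolynomial.map (Polynomial.mapRingHom φ) f) := by
      rw [hf', MvPolynomial.map_map, MvPolynomial.map_map]
      congr 2
      ext a
      · simp
      · simp
    rw [h2, det_hm_map, Polynomial.coe_compRingHom, Polynomial.eval_comp]
    simpa using hz2)
  rwa [card_image_of_injective _ (fun x y h => sub_left_injective h)] at h1

/-- A toric degeneration at infinity. -/
theorem concTi (hm1 : 1 ≤ m) (μ : A) (hμ : (m : A) ^ 2 * μ = 1)
    (f : MvPolynomial (Fin (n + 1)) (Polynomial A)) (hf : Sup m e Λ f)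
    (d : ℕ) (hd : ∀ u, (MvPolynomial.coeff u f).natDegree ≤ d)
    (hv : ∀ (f' : MvPolynomial (Fin (n + 1)) (Polynomial A)),
      (∀ v, MvPolynomial.coeff v f' = Polynomial.reflect d (MvPolynomial.coeff v f)) →
      ∀ w : Ex n e Λ, VertA f' (m • wx n e Λ w))
    (ε : ℝ) (hε : 0 < ε) :
    ∃ (p₀ : ℕ) (a : A), a ≠ 0 ∧ ∀ (p : ℕ) (k : Type) [Field k] [CharP k p] (φ : A →+* k),
      p.Prime → p₀ ≤ p → φ a ≠ 0 → ∀ e' : ℕ, e' * m + 1 = p →
      ∀ Z : Finset k, (∀ t ∈ Z, t ^ p = t ∧ (hm e' p (wx n e Λ) (MvPolynomial.map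
        (Polynomial.mapRingHom φ) f)).det.eval t = 0) → (Z.card : ℝ) ≤ ε * p := by
  classical
  set f' : MvPolynomial (Fin (n + 1)) (Polynomial A) :=
    ∑ u ∈ f.support, MvPolynomial.monomial u (Polynomial.reflect d (MvPolynomial.coeff u f))
    with hf'
  have hco : ∀ v, MvPolynomial.coeff v f' = Polynomial.reflect d (MvPolynomial.coeff v f) := by
    intro v
    rw [hf', MvPolynomial.coeff_sum, Finset.sum_eq_single v]
    · rw [MvPolynomial.coeff_monomial, if_pos rfl]
    · intro u _ hu
      rw [MvPolynomial.coeff_monomial, if_neg hu]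
    · intro hv
      rw [MvPolynomial.notMem_support_iff.mp hv]
      simp
  have hsup : Sup m e Λ f' := fun u hu => by
    apply hf u
    rw [MvPolynomial.mem_support_iff, hco] at hu
    rw [MvPolynomial.mem_support_iff]
    intro h0
    rw [h0, Polynomial.reflect_zero] at hu
    exact hu rfl
  obtain ⟨p₀, a, ha, h⟩ := concT n e m Λ hm1 μ hμ f' hsup (hv f' hco) (ε / 2) (by positivity)
  refine ⟨max p₀ ⌈2 / ε⌉₊, a, ha, ?_⟩
  intro p k _ _ φ hpp hp0 hφ e' he Z hZ
  have hfact : Fact p.Prime := ⟨hpp⟩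
  have hp1 : p₀ ≤ p := (le_max_left _ _).trans hp0
  have hp2 : 2 / ε ≤ (p : ℝ) := (Nat.le_ceil _).trans (by exact_mod_cast (le_max_right _ _).trans hp0)
  have h1 := h p k φ hpp hp1 hφ e' he ((Z.erase 0).image fun t => t⁻¹) (by
    intro t ht
    obtain ⟨z, hz, rfl⟩ := mem_image.mp ht
    obtain ⟨hz0, hz'⟩ := mem_erase.mp hz
    obtain ⟨hz1, hz2⟩ := hZ z hz'
    refine ⟨by rw [inv_pow, hz1], ?_⟩
    have h3 : MvPolynomial.map (Polynomial.evalRingHom z)
        (MvPolynomial.map (Polynomial.mapRingHom φ) f) =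
        MvPolynomial.C (z ^ d) * MvPolynomial.map (Polynomial.evalRingHom z⁻¹)
        (MvPolynomial.map (Polynomial.mapRingHom φ) f') := by
      ext1 v
      rw [MvPolynomial.coeff_C_mul, MvPolynomial.coeff_map, MvPolynomial.coeff_map,
        MvPolynomial.coeff_map, MvPolynomial.coeff_map, hco]
      simp only [Polynomial.coe_evalRingHom, Polynomial.coe_mapRingHom, Polynomial.eval_map]
      have : Invertible z := invertibleOfNonzero hz0
      have h4 := Polynomial.eval₂_reflect_mul_pow φ z d (MvPolynomial.coeff v f) (hd v)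
      rw [invOf_eq_inv] at h4
      rw [← h4, mul_comm]
    have h5 := congrArg (fun F => (hm e' p (wx n e Λ) F).det) h3
    rw [Hom.hm_C_mul, det_ev, det_ev, hz2] at h5
    rcases mul_eq_zero.mp h5.symm with h6 | h6
    · exact absurd h6 (pow_ne_zero _ (pow_ne_zero _ (pow_ne_zero _ hz0)))
    · exact h6)
  rw [card_image_of_injective _ inv_injective] at h1
  have h2 : (Z.card : ℝ) ≤ (Z.erase 0).card + 1 := by
    have := pred_card_le_card_erase (s := Z) (a := (0 : k))
    have h3 : Z.card ≤ (Z.erase 0).card + 1 := by omega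
    exact_mod_cast h3
  have h3 : 2 ≤ p * ε := by
    rwa [div_le_iff₀ hε] at hp2
  linarith

end

end Pool.Agent.Q267.TD
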