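import Pool.Agent.Q267.TD.Few

/-!
# Vertices of products of families
-/

set_option autoImplicit false

open Finset

namespace Pool.Agent.Q267.TD

open NumberField IsDedekindDomain

section ord

variable {K : Type} [Field K]

/-- The order at `s` is at least `N`. -/
def OrdGe (s : Option K) (N : ℤ) (c : Polynomial K) : Prop := c = 0 ∨ N ≤ ordAt s c

lemma ordAt_mul (s : Option K) {a b : Polynomial K} (ha : a ≠ 0) (hb : b ≠ 0) :
    ordAt s (a * b) = ordAt s a + ordAt s b := by
  cases s with
  | some s₀ =>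
    change (((a * b).rootMultiplicity s₀ : ℕ) : ℤ) =
      ((a.rootMultiplicity s₀ : ℕ) : ℤ) + ((b.rootMultiplicity s₀ : ℕ) : ℤ)
    rw [Polynomial.rootMultiplicity_mul (mul_ne_zero ha hb)]
    push_cast
    ring
  | none =>
    change -(((a * b).natDegree : ℕ) : ℤ) = -((a.natDegree : ℕ) : ℤ) + -((b.natDegree : ℕ) : ℤ)
    rw [Polynomial.natDegree_mul ha hb]
    push_cast
    ring

lemma ordAt_neg (s : Option K) (a : Polynomial K) : ordAt s (-a) = ordAt s a := by
  by_cases ha : a = 0
  · rw [ha, neg_zero]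
  have h1 : (Polynomial.C (-1) : Polynomial K) ≠ 0 := by
    rw [Ne, Polynomial.C_eq_zero]
    exact neg_ne_zero.mpr one_ne_zero
  have h2 : -a = Polynomial.C (-1) * a := by rw [Polynomial.C_neg, Polynomial.C_1, neg_one_mul]
  rw [h2, ordAt_mul s h1 ha]
  have h3 : ordAt s (Polynomial.C (-1) : Polynomial K) = 0 := by
    cases s with
    | some s₀ =>
      change (((Polynomial.C (-1) : Polynomial K).rootMultiplicity s₀ : ℕ) : ℤ) = 0
      rw [Polynomial.rootMultiplicity_C]
      rfl
    | none =>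
      change -(((Polynomial.C (-1) : Polynomial K).natDegree : ℕ) : ℤ) = 0
      rw [Polynomial.natDegree_C]
      rfl
  rw [h3, zero_add]

lemma ordAt_add (s : Option K) {a b : Polynomial K} (hab : a + b ≠ 0) :
    min (ordAt s a) (ordAt s b) ≤ ordAt s (a + b) := by
  cases s with
  | some s₀ =>
    have h1 := Polynomial.rootMultiplicity_add (a := s₀) hab
    change min ((a.rootMultiplicity s₀ : ℕ) : ℤ) ((b.rootMultiplicity s₀ : ℕ) : ℤ) ≤
      (((a + b).rootMultiplicity s₀ : ℕ) : ℤ)
    exact_mod_cast h1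
  | none =>
    have h1 := Polynomial.natDegree_add_le a b
    change min (-((a.natDegree : ℕ) : ℤ)) (-((b.natDegree : ℕ) : ℤ)) ≤
      -(((a + b).natDegree : ℕ) : ℤ)
    rw [min_neg_neg]
    have h2 : (((a + b).natDegree : ℕ) : ℤ) ≤ max (a.natDegree : ℤ) (b.natDegree : ℤ) := by
      exact_mod_cast h1
    omega

lemma OrdGe.add {s : Option K} {N : ℤ} {a b : Polynomial K} (ha : OrdGe s N a)
    (hb : OrdGe s N b) : OrdGe s N (a + b) := by
  by_cases h : a + b = 0
  · exact Or.inl h
  right
  rcases ha with rfl | ha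
  · rw [zero_add] at h ⊢
    exact hb.resolve_left h
  rcases hb with rfl | hb
  · rw [add_zero]
    exact ha
  exact (le_min ha hb).trans (ordAt_add s h)

lemma OrdGe.sum {β : Type} {s : Option K} {N : ℤ} (S : Finset β) (f : β → Polynomial K)
    (hf : ∀ b ∈ S, OrdGe s N (f b)) : OrdGe s N (∑ b ∈ S, f b) := by
  classical
  induction S using Finset.induction_on with
  | empty => rw [sum_empty]; exact Or.inl rfl
  | insert b S hb ih =>
    rw [sum_insert hb]
    exact (hf b (mem_insert_self _ _)).add (ih fun c hc => hf c (mem_insert_of_mem hc))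

lemma ordAt_add_eq {s : Option K} {a b : Polynomial K} (ha : a ≠ 0)
    (hb : OrdGe s (ordAt s a + 1) b) : a + b ≠ 0 ∧ ordAt s (a + b) = ordAt s a := by
  have hneg : OrdGe s (ordAt s a + 1) (-b) := by
    rcases hb with h | h
    · exact Or.inl (by rw [h, neg_zero])
    · exact Or.inr (by rw [ordAt_neg]; exact h)
  have h1 : ¬ OrdGe s (ordAt s a + 1) (a + b) := by
    intro h
    have h2 := h.add hneg
    rw [add_neg_cancel_right] at h2
    rcases h2 with h2 | h2
    · exact ha h2
    · omega
  have h2 : a + b ≠ 0 := fun h => h1 (Or.inl h)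
  refine ⟨h2, le_antisymm ?_ ?_⟩
  · by_contra hno
    push Not at hno
    exact h1 (Or.inr (by omega))
  · have h3 : OrdGe s (ordAt s a) b := by
      rcases hb with h | h
      · exact Or.inl h
      · exact Or.inr (by omega)
    exact ((OrdGe.add (Or.inr le_rfl) h3).resolve_left h2)

end ord

section vert

variable {K : Type} [Field K] {n : ℕ}

/-- The pairing with the exponents. -/
def pr (lam : Fin (n + 1) → ℚ) (u : Fin (n + 1) →₀ ℕ) : ℚ := ∑ i, lam i * (u i : ℚ)

lemma pr_add (lam : Fin (n + 1) → ℚ) (u v : Fin (n + 1) →₀ ℕ) :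
    pr lam (u + v) = pr lam u + pr lam v := by
  unfold pr
  rw [← sum_add_distrib]
  refine sum_congr rfl fun i _ => ?_
  rw [Finsupp.add_apply]
  push_cast
  ring

/-- The exponent `v` is the vertex of the family for the linear form `lam`. -/
def VertK (s : Option K) (lam : Fin (n + 1) → ℚ) (F : MvPolynomial (Fin (n + 1)) (Polynomial K))
    (v : Fin (n + 1) →₀ ℕ) : Prop :=
  v ∈ F.support ∧ ∀ u ∈ F.support, u ≠ v →
    (ordAt s (MvPolynomial.coeff v F) : ℚ) - pr lam v <
      (ordAt s (MvPolynomial.coeff u F) : ℚ) - pr lam u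

lemma VertK.le {s : Option K} {lam : Fin (n + 1) → ℚ}
    {F : MvPolynomial (Fin (n + 1)) (Polynomial K)} {v : Fin (n + 1) →₀ ℕ}
    (h : VertK s lam F v) (u : Fin (n + 1) →₀ ℕ) (hu : u ∈ F.support) :
    (ordAt s (MvPolynomial.coeff v F) : ℚ) - pr lam v ≤
      (ordAt s (MvPolynomial.coeff u F) : ℚ) - pr lam u := by
  by_cases huv : u = v
  · rw [huv]
  · exact (h.2 u hu huv).le

lemma VertK.mul {s : Option K} {lam : Fin (n + 1) → ℚ}
    {F G : MvPolynomial (Fin (n + 1)) (Polynomial K)} {v w : Fin (n + 1) →₀ ℕ}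
    (hF : VertK s lam F v) (hG : VertK s lam G w) : VertK s lam (F * G) (v + w) := by
  classical
  have hv0 : MvPolynomial.coeff v F ≠ 0 := MvPolynomial.mem_support_iff.mp hF.1
  have hw0 : MvPolynomial.coeff w G ≠ 0 := MvPolynomial.mem_support_iff.mp hG.1
  -- the terms
  have hterm : ∀ (x : Fin (n + 1) →₀ ℕ) (N : ℤ) (S : Finset ((Fin (n + 1) →₀ ℕ) × (Fin (n + 1) →₀ ℕ))),
      (∀ y ∈ S, y.1 + y.2 = x) →
      (∀ y ∈ S, y.1 ∈ F.support → y.2 ∈ G.support →
        (N : ℚ) ≤ (ordAt s (MvPolynomial.coeff y.1 F) : ℚ) +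
          (ordAt s (MvPolynomial.coeff y.2 G) : ℚ)) →
      OrdGe s N (∑ y ∈ S, MvPolynomial.coeff y.1 F * MvPolynomial.coeff y.2 G) := by
    intro x N S _ hS
    refine OrdGe.sum S _ fun y hy => ?_
    by_cases h1 : MvPolynomial.coeff y.1 F = 0
    · exact Or.inl (by rw [h1, zero_mul])
    by_cases h2 : MvPolynomial.coeff y.2 G = 0
    · exact Or.inl (by rw [h2, mul_zero])
    right
    rw [ordAt_mul s h1 h2]
    exact_mod_cast hS y hy (MvPolynomial.mem_support_iff.mpr h1)
      (MvPolynomial.mem_support_iff.mpr h2)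
  -- the vertex
  have hmem : ((v, w) : (Fin (n + 1) →₀ ℕ) × (Fin (n + 1) →₀ ℕ)) ∈ antidiagonal (v + w) := by
    rw [HasAntidiagonal.mem_antidiagonal]
  have hsum : MvPolynomial.coeff (v + w) (F * G) =
      MvPolynomial.coeff v F * MvPolynomial.coeff w G +
        ∑ y ∈ (antidiagonal (v + w)).erase (v, w),
          MvPolynomial.coeff y.1 F * MvPolynomial.coeff y.2 G := by
    rw [MvPolynomial.coeff_mul, ← add_sum_erase _ _ hmem]
  have hN := ordAt_mul s hv0 hw0
  have hrest : OrdGe s (ordAt s (MvPolynomial.coeff v F * MvPolynomial.coeff w G) + 1)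
      (∑ y ∈ (antidiagonal (v + w)).erase (v, w),
          MvPolynomial.coeff y.1 F * MvPolynomial.coeff y.2 G) := by
    refine hterm (v + w) _ _ (fun y hy => HasAntidiagonal.mem_antidiagonal.mp (mem_of_mem_erase hy)) ?_
    intro y hy hy1 hy2
    have hsum' := HasAntidiagonal.mem_antidiagonal.mp (mem_of_mem_erase hy)
    have hne := ne_of_mem_erase hy
    have h1 := hF.le y.1 hy1
    have h2 := hG.le y.2 hy2
    have h3 : pr lam y.1 + pr lam y.2 = pr lam v + pr lam w := by
      rw [← pr_add, ← pr_add, hsum']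
    have h4 : (ordAt s (MvPolynomial.coeff v F) : ℚ) + (ordAt s (MvPolynomial.coeff w G) : ℚ) <
        (ordAt s (MvPolynomial.coeff y.1 F) : ℚ) + (ordAt s (MvPolynomial.coeff y.2 G) : ℚ) := by
      by_cases h5 : y.1 = v
      · have h6 : y.2 ≠ w := fun h6 => hne (Prod.ext h5 h6)
        have h7 := hG.2 y.2 hy2 h6
        linarith
      · have h7 := hF.2 y.1 hy1 h5
        linarith
    rw [hN]
    have h5 : ordAt s (MvPolynomial.coeff v F) + ordAt s (MvPolynomial.coeff w G) <
        ordAt s (MvPolynomial.coeff y.1 F) + ordAt s (MvPolynomial.coeff y.2 G) := by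
      exact_mod_cast h4
    exact_mod_cast (by omega : ordAt s (MvPolynomial.coeff v F) +
      ordAt s (MvPolynomial.coeff w G) + 1 ≤
        ordAt s (MvPolynomial.coeff y.1 F) + ordAt s (MvPolynomial.coeff y.2 G))
  obtain ⟨hne, heq⟩ := ordAt_add_eq (mul_ne_zero hv0 hw0) hrest
  rw [← hsum] at hne heq
  refine ⟨MvPolynomial.mem_support_iff.mpr hne, fun x hx hxv => ?_⟩
  rw [heq, hN, pr_add]
  by_contra hno
  push Not at hno
  have hx0 := MvPolynomial.mem_support_iff.mp hx
  have h1 : OrdGe s (ordAt s (MvPolynomial.coeff x (F * G)) + 1)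
      (MvPolynomial.coeff x (F * G)) := by
    have h1 := hterm x (ordAt s (MvPolynomial.coeff x (F * G)) + 1) (antidiagonal x)
      (fun y hy => HasAntidiagonal.mem_antidiagonal.mp hy) (by
        intro y hy hy1 hy2
        have hsum' := HasAntidiagonal.mem_antidiagonal.mp hy
        have h1 := hF.le y.1 hy1
        have h2 := hG.le y.2 hy2
        have h3 : pr lam y.1 + pr lam y.2 = pr lam x := by rw [← pr_add, hsum']
        have h4 : (ordAt s (MvPolynomial.coeff x (F * G)) : ℚ) <
            (ordAt s (MvPolynomial.coeff y.1 F) : ℚ) + (ordAt s (MvPolynomial.coeff y.2 G) : ℚ) := by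
          push_cast at hno
          by_cases h5 : y.1 = v
          · have h6 : y.2 ≠ w := fun h6 => hxv (by rw [← hsum', h5, h6])
            have h7 := hG.2 y.2 hy2 h6
            linarith
          · have h7 := hF.2 y.1 hy1 h5
            linarith
        have h5 : ordAt s (MvPolynomial.coeff x (F * G)) <
            ordAt s (MvPolynomial.coeff y.1 F) + ordAt s (MvPolynomial.coeff y.2 G) := by
          exact_mod_cast h4
        exact_mod_cast (by omega : ordAt s (MvPolynomial.coeff x (F * G)) + 1 ≤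
            ordAt s (MvPolynomial.coeff y.1 F) + ordAt s (MvPolynomial.coeff y.2 G)))
    rw [MvPolynomial.coeff_mul]
    rw [MvPolynomial.coeff_mul] at h1
    exact h1
  rcases h1 with h1 | h1
  · exact hx0 h1
  · omega

lemma VertK.one (s : Option K) (lam : Fin (n + 1) → ℚ) :
    VertK s lam (1 : MvPolynomial (Fin (n + 1)) (Polynomial K)) 0 := by
  classical
  have hs : ∀ u : Fin (n + 1) →₀ ℕ,
      u ∈ (1 : MvPolynomial (Fin (n + 1)) (Polynomial K)).support → u = 0 := by
    intro u hu
    by_contra h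
    rw [MvPolynomial.mem_support_iff, MvPolynomial.coeff_one, if_neg (Ne.symm h)] at hu
    exact hu rfl
  refine ⟨?_, fun u hu hne => absurd (hs u hu) hne⟩
  rw [MvPolynomial.mem_support_iff, MvPolynomial.coeff_one, if_pos rfl]
  exact one_ne_zero

lemma VertK.pow {s : Option K} {lam : Fin (n + 1) → ℚ}
    {F : MvPolynomial (Fin (n + 1)) (Polynomial K)} {v : Fin (n + 1) →₀ ℕ}
    (hF : VertK s lam F v) (N : ℕ) : VertK s lam (F ^ N) (N • v) := by
  induction N with
  | zero => rw [pow_zero, zero_smul]; exact VertK.one s lam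
  | succ N ih => rw [pow_succ, succ_nsmul]; exact ih.mul hF

lemma VertK.prod {β : Type} {s : Option K} {lam : Fin (n + 1) → ℚ} (S : Finset β)
    {F : β → MvPolynomial (Fin (n + 1)) (Polynomial K)} {v : β → Fin (n + 1) →₀ ℕ}
    (hF : ∀ b ∈ S, VertK s lam (F b) (v b)) : VertK s lam (∏ b ∈ S, F b) (∑ b ∈ S, v b) := by
  classical
  induction S using Finset.induction_on with
  | empty => rw [prod_empty, sum_empty]; exact VertK.one s lam
  | insert b S hb ih =>
    rw [prod_insert hb, sum_insert hb]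
    exact (hF b (mem_insert_self _ _)).mul (ih fun c hc => hF c (mem_insert_of_mem hc))

/-- The vertices of a family over the integers. -/
lemma isVert_of [NumberField K] {s : Option K} {lam : Fin (n + 1) → ℚ}
    {F : MvPolynomial (Fin (n + 1)) (Polynomial (𝓞 K))} {v : Fin (n + 1) →₀ ℕ}
    (h : VertK s lam (MvPolynomial.map (Polynomial.mapRingHom (algebraMap (𝓞 K) K)) F) v) :
    IsVert s F v := by
  have hOK : Function.Injective (algebraMap (𝓞 K) K) := IsFractionRing.injective (𝓞 K) K
  have hinj : Function.Injective (Polynomial.mapRingHom (algebraMap (𝓞 K) K)) :=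
    Polynomial.map_injective _ hOK
  have hsupp : (MvPolynomial.map (Polynomial.mapRingHom (algebraMap (𝓞 K) K)) F).support =
      F.support := MvPolynomial.support_map_of_injective _ hinj
  obtain ⟨h1, h2⟩ := h
  rw [hsupp] at h1 h2
  refine ⟨h1, lam, fun u hu hne => ?_⟩
  have h3 := h2 u hu hne
  rw [MvPolynomial.coeff_map, MvPolynomial.coeff_map, Polynomial.coe_mapRingHom] at h3
  have h4 : ∑ i, lam i * ((u i : ℚ) - (v i : ℚ)) = pr lam u - pr lam v := by
    unfold pr
    rw [← sum_sub_distrib]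
    exact sum_congr rfl fun i _ => by ring
  rw [h4]
  linarith

end vert

end Pool.Agent.Q267.TD
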